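import Mathlib

set_option autoImplicit false

open Set Metric Filter Topology

namespace Pool.Agent.Lib.MP_1755e3_an

/-- The plane. -/
abbrev Plane := EuclideanSpace ℝ (Fin 2)

/-- the point with coordinates `x`, `y` -/
noncomputable def pt (x y : ℝ) : Plane := WithLp.toLp 2 ![x, y]

/-- `f` is vertically rigid. -/
def VerticallyRigid (f : ℝ → ℝ) : Prop :=
  ∀ c : ℝ, 0 < c → ∃ φ : EuclideanSpace ℝ (Fin 2) ≃ᵢ EuclideanSpace ℝ (Fin 2),
    φ '' Set.range (fun x : ℝ => (WithLp.toLp 2 ![x, c * f x] : EuclideanSpace ℝ (Fin 2)))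
      = Set.range (fun x : ℝ => (WithLp.toLp 2 ![x, f x] : EuclideanSpace ℝ (Fin 2)))

theorem pt_inj {x y x' y' : ℝ} : pt x y = pt x' y' ↔ x = x' ∧ y = y' := by
  constructor
  · intro h
    have h0 := congrArg (fun v : Plane => v 0) h
    have h1 := congrArg (fun v : Plane => v 1) h
    simpa [pt] using And.intro h0 h1
  · rintro ⟨rfl, rfl⟩
    rfl

theorem exists_pt (v : Plane) : ∃ x y : ℝ, v = pt x y := by
  refine ⟨v 0, v 1, ?_⟩
  ext i
  fin_cases i <;> simp [pt]

theorem pt_eq (x y : ℝ) : pt x y = x • pt 1 0 + y • pt 0 1 := by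
  ext i
  fin_cases i <;> simp [pt]

theorem norm_pt_sq (x y : ℝ) : ‖pt x y‖ ^ 2 = x ^ 2 + y ^ 2 := by
  rw [EuclideanSpace.norm_sq_eq]
  simp [pt]

theorem inner_pt (x y x' y' : ℝ) : inner ℝ (pt x y) (pt x' y') = x * x' + y * y' := by
  rw [PiLp.inner_apply]
  simp [pt]
  ring

/-- Isometries of the plane in coordinates. -/
theorem isometry_coords (φ : Plane ≃ᵢ Plane) :
    ∃ p q t₁ t₂ σ : ℝ, p ^ 2 + q ^ 2 = 1 ∧ σ ^ 2 = 1 ∧
      ∀ x y : ℝ, φ (pt x y) = pt (t₁ + p * x - σ * q * y) (t₂ + q * x + σ * p * y) := by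
  let A := φ.toRealAffineIsometryEquiv
  have hA : ∀ v, φ v = A v := fun v => rfl
  let L := A.linearIsometryEquiv
  have hL : ∀ v : Plane, φ v = L v + φ 0 := by
    intro v
    rw [hA, hA]
    have := A.map_vadd 0 v
    simpa using this
  obtain ⟨t₁, t₂, ht⟩ := exists_pt (φ 0)
  obtain ⟨p, q, h1⟩ := exists_pt (L (pt 1 0))
  obtain ⟨r, s, h2⟩ := exists_pt (L (pt 0 1))
  have n1 : p ^ 2 + q ^ 2 = 1 := by
    rw [← norm_pt_sq, ← h1, L.norm_map, norm_pt_sq]
    norm_num
  have n2 : r ^ 2 + s ^ 2 = 1 := by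
    rw [← norm_pt_sq, ← h2, L.norm_map, norm_pt_sq]
    norm_num
  have n3 : p * r + q * s = 0 := by
    rw [← inner_pt, ← h1, ← h2, L.inner_map_map, inner_pt]
    norm_num
  refine ⟨p, q, t₁, t₂, p * s - q * r, n1, ?_, fun x y => ?_⟩
  · have : (p * s - q * r) ^ 2 + (p * r + q * s) ^ 2 = (p ^ 2 + q ^ 2) * (r ^ 2 + s ^ 2) := by ring
    rw [n1, n2, n3] at this
    linarith
  · rw [hL, pt_eq, map_add, map_smul, map_smul, h1, h2, ht]
    have e1 : r = -((p * s - q * r) * q) := by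
      have h : p * r = -(q * s) := by linarith
      have : -((p * s - q * r) * q) = (p ^ 2 + q ^ 2) * r := by
        calc -((p * s - q * r) * q) = p * (-(q * s)) + q ^ 2 * r := by ring
          _ = p * (p * r) + q ^ 2 * r := by rw [h]
          _ = _ := by ring
      rw [this, n1, one_mul]
    have e2 : s = (p * s - q * r) * p := by
      have h : p * r = -(q * s) := by linarith
      have : (p * s - q * r) * p = (p ^ 2 + q ^ 2) * s := by
        calc (p * s - q * r) * p = p ^ 2 * s - q * (p * r) := by ring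
          _ = p ^ 2 * s - q * (-(q * s)) := by rw [h]
          _ = _ := by ring
      rw [this, n1, one_mul]
    ext i
    fin_cases i
    · simp only [pt, Fin.zero_eta, Fin.isValue, PiLp.add_apply, PiLp.smul_apply,
        Matrix.cons_val_zero, smul_eq_mul]
      have : y * r = -((p * s - q * r) * q * y) := by
        conv_lhs => rw [e1]
        ring
      rw [this]
      ring
    · simp only [pt, Fin.mk_one, Fin.isValue, PiLp.add_apply, PiLp.smul_apply,
        Matrix.cons_val_one, Matrix.cons_val_fin_one, smul_eq_mul]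
      have : y * s = (p * s - q * r) * p * y := by
        conv_lhs => rw [e2]
        ring
      rw [this]
      ring

/-- parameters of the affine maps preserving the graph -/
def Par (f : ℝ → ℝ) (c p q t₁ t₂ σ : ℝ) : Prop :=
  p ^ 2 + q ^ 2 = 1 ∧ σ ^ 2 = 1 ∧
    (∀ x, f (t₁ + p * x - σ * q * (c * f x)) = t₂ + q * x + σ * p * (c * f x)) ∧
    (∀ x', ∃ x, x' = t₁ + p * x - σ * q * (c * f x))

theorem exists_par {f : ℝ → ℝ} (hf : VerticallyRigid f) {c : ℝ} (hc : 0 < c) :
    ∃ p q t₁ t₂ σ : ℝ, Par f c p q t₁ t₂ σ := by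
  obtain ⟨φ, hφ⟩ := hf c hc
  obtain ⟨p, q, t₁, t₂, σ, h1, h2, h3⟩ := isometry_coords φ
  refine ⟨p, q, t₁, t₂, σ, h1, h2, fun x => ?_, fun x' => ?_⟩
  · have h4 : φ (pt x (c * f x)) ∈ range (fun x : ℝ => pt x (f x)) := by
      have : φ (pt x (c * f x)) ∈ φ '' range (fun x : ℝ => pt x (c * f x)) :=
        mem_image_of_mem _ (mem_range_self x)
      have e : φ '' range (fun x : ℝ => pt x (c * f x)) = range (fun x : ℝ => pt x (f x)) := hφ
      rwa [e] at this
    obtain ⟨x', hx'⟩ := h4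
    rw [h3] at hx'
    obtain ⟨h5, h6⟩ := pt_inj.1 hx'
    rw [← h5, h6]
  · have h4 : pt x' (f x') ∈ φ '' range (fun x : ℝ => pt x (c * f x)) := by
      have e : φ '' range (fun x : ℝ => pt x (c * f x)) = range (fun x : ℝ => pt x (f x)) := hφ
      rw [e]
      exact mem_range_self x'
    obtain ⟨_, ⟨x, rfl⟩, hx⟩ := h4
    change φ (pt x (c * f x)) = _ at hx
    rw [h3] at hx
    exact ⟨x, (pt_inj.1 hx).1.symm⟩

end Pool.Agent.Lib.MP_1755e3_an
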