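import Mathlib

set_option autoImplicit false

open Set Metric Filter Topology NormedSpace

namespace Pool.Agent.Lib.MP_1755e3_an

section

variable {𝔸 : Type*} [NormedRing 𝔸] [NormOneClass 𝔸]

theorem norm_pow_sub_pow_le {a b : 𝔸} {r : ℝ} (hr : 1 ≤ r) (ha : ‖a‖ ≤ r) (hb : ‖b‖ ≤ r)
    (m : ℕ) : ‖a ^ m - b ^ m‖ ≤ m * r ^ m * ‖a - b‖ := by
  induction m with
  | zero => simp
  | succ m ih =>
    have hr0 : 0 ≤ r := by linarith
    have h1 : a ^ (m + 1) - b ^ (m + 1) = a * (a ^ m - b ^ m) + (a - b) * b ^ m := by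
      rw [pow_succ', pow_succ']
      noncomm_ring
    have hbm : ‖b ^ m‖ ≤ r ^ m := (norm_pow_le b m).trans (pow_le_pow_left₀ (norm_nonneg _) hb m)
    have h2 : r ^ m ≤ r ^ (m + 1) := pow_le_pow_right₀ hr (Nat.le_succ m)
    calc ‖a ^ (m + 1) - b ^ (m + 1)‖ ≤ ‖a * (a ^ m - b ^ m)‖ + ‖(a - b) * b ^ m‖ := by
          rw [h1]; exact norm_add_le _ _
      _ ≤ ‖a‖ * ‖a ^ m - b ^ m‖ + ‖a - b‖ * ‖b ^ m‖ := by
          gcongr <;> exact norm_mul_le _ _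
      _ ≤ r * (m * r ^ m * ‖a - b‖) + ‖a - b‖ * r ^ m := by gcongr
      _ = m * r ^ (m + 1) * ‖a - b‖ + ‖a - b‖ * r ^ m := by ring
      _ ≤ m * r ^ (m + 1) * ‖a - b‖ + ‖a - b‖ * r ^ (m + 1) := by gcongr
      _ = ((m + 1 : ℕ) : ℝ) * r ^ (m + 1) * ‖a - b‖ := by push_cast; ring

end

section

variable {𝔸 : Type*} [NormedRing 𝔸] [NormOneClass 𝔸] [NormedAlgebra ℝ 𝔸] [CompleteSpace 𝔸]

theorem tendsto_pow_exp {ε : ℕ → 𝔸} {m : ℕ → ℕ} {X : 𝔸} (hε : Tendsto ε atTop (𝓝 0))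
    (hm : Tendsto (fun n => (m n : ℝ) • ε n) atTop (𝓝 X)) :
    Tendsto (fun n => (1 + ε n) ^ m n) atTop (𝓝 (exp X)) := by
  let _ : NormedAlgebra ℚ 𝔸 := NormedAlgebra.restrictScalars ℚ ℝ 𝔸
  have h1 : Tendsto (fun n => exp ((m n : ℝ) • ε n)) atTop (𝓝 (exp X)) :=
    ((exp_continuous (𝔸 := 𝔸)).tendsto X).comp hm
  have h2 : Tendsto (fun n => (1 + ε n) ^ m n - exp ((m n : ℝ) • ε n)) atTop (𝓝 0) := by
    have hbd : Tendsto (fun n => (m n : ℝ) * ‖ε n‖) atTop (𝓝 ‖X‖) := by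
      have := hm.norm
      refine this.congr fun n => ?_
      rw [norm_smul, Real.norm_eq_abs, abs_of_nonneg (Nat.cast_nonneg _)]
    have hlo' : (fun n => exp (ε n) - 1 - ε n) =o[atTop] (fun n => ε n) := by
      have h3 : HasFDerivAt (exp : 𝔸 → 𝔸) (1 : 𝔸 →L[ℝ] 𝔸) 0 := hasFDerivAt_exp_zero
      have h4 := h3.isLittleO
      simp only [exp_zero, sub_zero] at h4
      exact h4.comp_tendsto hε
    have hlo : Tendsto (fun n => ‖exp (ε n) - 1 - ε n‖ / ‖ε n‖) atTop (𝓝 0) :=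
      hlo'.norm_left.norm_right.tendsto_div_nhds_zero
    have hprod : Tendsto (fun n => ((m n : ℝ) * ‖ε n‖) * Real.exp (2 * ((m n : ℝ) * ‖ε n‖)) *
        (‖exp (ε n) - 1 - ε n‖ / ‖ε n‖)) atTop (𝓝 (‖X‖ * Real.exp (2 * ‖X‖) * 0)) :=
      (hbd.mul ((Real.continuous_exp.tendsto _).comp (hbd.const_mul 2))).mul hlo
    rw [mul_zero] at hprod
    refine squeeze_zero_norm' ?_ hprod
    filter_upwards [hlo'.bound one_pos] with n hn
    rw [one_mul] at hn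
    have e1 : exp ((m n : ℝ) • ε n) = exp (ε n) ^ m n := by
      rw [← exp_nsmul, Nat.cast_smul_eq_nsmul]
    have hr : 1 ≤ Real.exp (2 * ‖ε n‖) := Real.one_le_exp (by positivity)
    have ha : ‖1 + ε n‖ ≤ Real.exp (2 * ‖ε n‖) := by
      calc ‖1 + ε n‖ ≤ ‖(1 : 𝔸)‖ + ‖ε n‖ := norm_add_le _ _
        _ ≤ 2 * ‖ε n‖ + 1 := by rw [norm_one]; have := norm_nonneg (ε n); linarith
        _ ≤ _ := Real.add_one_le_exp _
    have hb : ‖exp (ε n)‖ ≤ Real.exp (2 * ‖ε n‖) := by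
      calc ‖exp (ε n)‖ = ‖1 + ε n + (exp (ε n) - 1 - ε n)‖ := by congr 1; abel
        _ ≤ ‖(1 : 𝔸)‖ + ‖ε n‖ + ‖exp (ε n) - 1 - ε n‖ := norm_add₃_le
        _ ≤ 2 * ‖ε n‖ + 1 := by rw [norm_one]; linarith
        _ ≤ _ := Real.add_one_le_exp _
    have h6 := norm_pow_sub_pow_le hr ha hb (m n)
    rw [e1]
    refine h6.trans ?_
    have e2 : Real.exp (2 * ‖ε n‖) ^ m n = Real.exp (2 * ((m n : ℝ) * ‖ε n‖)) := by
      rw [← Real.exp_nat_mul]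
      congr 1
      ring
    have e3 : ‖1 + ε n - exp (ε n)‖ = ‖exp (ε n) - 1 - ε n‖ := by
      rw [← norm_neg]; congr 1; abel
    rw [e2, e3]
    by_cases h0 : ‖ε n‖ = 0
    · rw [norm_eq_zero] at h0
      rw [h0]
      simp
    · refine le_of_eq ?_
      field_simp
  have := h2.add h1
  simpa using this

end

end Pool.Agent.Lib.MP_1755e3_an
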