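import Mathlib

set_option autoImplicit false

open Set Metric Filter Topology

namespace Pool.Agent.Lib.MP_1755e3_an

/-- the planar set `K` is mapped onto itself by the affine map with the given parameters -/
def KPar (K : Set (ℝ × ℝ)) (c p q t₁ t₂ σ : ℝ) : Prop :=
  p ^ 2 + q ^ 2 = 1 ∧ σ ^ 2 = 1 ∧
    (∀ x y, (x, y) ∈ K → (t₁ + p * x - σ * q * (c * y), t₂ + q * x + σ * p * (c * y)) ∈ K) ∧
    (∀ X Y, (X, Y) ∈ K → ∃ x y, (x, y) ∈ K ∧ X = t₁ + p * x - σ * q * (c * y) ∧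
      Y = t₂ + q * x + σ * p * (c * y))

variable {K : Set (ℝ × ℝ)}

theorem abs_le_one_of_sq {p q : ℝ} (h : p ^ 2 + q ^ 2 = 1) : |p| ≤ 1 ∧ |q| ≤ 1 := by
  constructor
  · rw [← sq_le_one_iff_abs_le_one]; nlinarith [sq_nonneg q]
  · rw [← sq_le_one_iff_abs_le_one]; nlinarith [sq_nonneg p]

theorem abs_eq_one_of_sq {σ : ℝ} (h : σ ^ 2 = 1) : |σ| = 1 := by
  have := sq_abs σ
  rw [h] at this
  nlinarith [abs_nonneg σ]

/-- first bound on slopes at infinity -/
theorem slope_bound (hunb : ∀ N : ℝ, ∃ x y, (x, y) ∈ K ∧ N < |x|) {S R : ℝ} (hS : 0 ≤ S)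
    (hR : 0 ≤ R) (hg : ∀ x y, (x, y) ∈ K → |y| ≤ S * |x| + R) {c : ℝ} (hc : 0 < c)
    (hcS : c * S * (1 + S) ≤ 1 / 2) {p q t₁ t₂ σ : ℝ} (hK : KPar K c p q t₁ t₂ σ) :
    ∃ m R' : ℝ, ∀ X Y, (X, Y) ∈ K → |Y - m * X| ≤ 4 * S * (1 + S) ^ 2 * c * |X| + R' := by
  obtain ⟨hpq, hσ, -, hinv⟩ := hK
  obtain ⟨hp, hq⟩ := abs_le_one_of_sq hpq
  have hσ1 := abs_eq_one_of_sq hσ
  set R₁ : ℝ := |-q * t₁ + p * t₂| + c * (S * (R + |p * t₁ + q * t₂|) + R) with hR₁
  have hR₁0 : 0 ≤ R₁ := by positivity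
  have key : ∀ X Y, (X, Y) ∈ K → |p * Y - q * X| ≤ c * S * (1 + S) * |X| + R₁ := by
    intro X Y hXY
    obtain ⟨x, y, hxy, hX, hY⟩ := hinv X Y hXY
    have e1 : p * Y - q * X = (-q * t₁ + p * t₂) + σ * (c * y) := by
      calc p * Y - q * X = (-q * t₁ + p * t₂) + (p ^ 2 + q ^ 2) * (σ * (c * y)) := by
            rw [hX, hY]; ring
        _ = _ := by rw [hpq, one_mul]
    have e2 : x = p * X + q * Y - (p * t₁ + q * t₂) := by
      calc x = (p ^ 2 + q ^ 2) * x := by rw [hpq, one_mul]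
        _ = _ := by rw [hX, hY]; ring
    have h1 : |p * Y - q * X| ≤ |-q * t₁ + p * t₂| + c * |y| := by
      rw [e1]
      refine (abs_add_le _ _).trans ?_
      rw [abs_mul, abs_mul, hσ1, one_mul, abs_of_pos hc]
    have hy := hg x y hxy
    have hYb := hg X Y hXY
    have hx : |x| ≤ |X| + |Y| + |p * t₁ + q * t₂| := by
      rw [e2]
      refine (abs_sub _ _).trans ?_
      have h3 : |p * X + q * Y| ≤ |X| + |Y| := by
        refine (abs_add_le _ _).trans ?_
        rw [abs_mul, abs_mul]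
        have := mul_le_of_le_one_left (abs_nonneg X) hp
        have := mul_le_of_le_one_left (abs_nonneg Y) hq
        linarith
      linarith
    have hx2 : |x| ≤ (1 + S) * |X| + (R + |p * t₁ + q * t₂|) := by linarith
    have hy2 : |y| ≤ S * ((1 + S) * |X| + (R + |p * t₁ + q * t₂|)) + R := by
      have := mul_le_mul_of_nonneg_left hx2 hS
      linarith
    calc |p * Y - q * X| ≤ |-q * t₁ + p * t₂| + c * |y| := h1
      _ ≤ |-q * t₁ + p * t₂| + c * (S * ((1 + S) * |X| + (R + |p * t₁ + q * t₂|)) + R) := by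
          gcongr
      _ = c * S * (1 + S) * |X| + R₁ := by rw [hR₁]; ring
  have hpl : 1 / (4 * (1 + S)) ≤ |p| := by
    by_contra hcon
    push Not at hcon
    obtain ⟨X, Y, hXY, hX⟩ := hunb (20 * (R + R₁))
    have h1 := key X Y hXY
    have h2 := hg X Y hXY
    have h3 : |q| * |X| ≤ |p| * |Y| + |p * Y - q * X| := by
      have : q * X = p * Y - (p * Y - q * X) := by ring
      rw [← abs_mul, ← abs_mul, this]
      refine (abs_sub _ _).trans ?_
      rw [← this]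
    have h4 : |p| * S ≤ 1 / 4 := by
      have h5 : |p| * (4 * (1 + S)) < 1 := by rwa [← lt_div_iff₀ (by positivity)]
      have := abs_nonneg p
      nlinarith
    have hX0 : 0 < |X| := by
      have : 0 ≤ 20 * (R + R₁) := by positivity
      linarith
    have h5 : |q| * |X| ≤ 3 / 4 * |X| + (R + R₁) := by
      have h6 : |p| * |Y| ≤ |p| * (S * |X| + R) := mul_le_mul_of_nonneg_left h2 (abs_nonneg _)
      have h7 : |p| * (S * |X| + R) ≤ 1 / 4 * |X| + R := by
        have h8 := mul_le_mul_of_nonneg_right h4 hX0.le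
        have h9 := mul_le_of_le_one_left hR hp
        nlinarith
      have h8 : c * S * (1 + S) * |X| ≤ 1 / 2 * |X| := by gcongr
      linarith
    have h6 : |q| < 4 / 5 := by
      have : |q| * |X| < 4 / 5 * |X| := by linarith
      exact lt_of_mul_lt_mul_right this hX0.le
    have h7 : |p| < 1 / 4 := by
      refine hcon.trans_le ?_
      rw [div_le_div_iff₀ (by positivity) (by norm_num)]
      linarith
    have h8 := sq_abs p
    have h9 := sq_abs q
    nlinarith [abs_nonneg p, abs_nonneg q]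
  have hp0 : 0 < |p| := lt_of_lt_of_le (by positivity) hpl
  refine ⟨q / p, 4 * (1 + S) * R₁, fun X Y hXY => ?_⟩
  have h1 := key X Y hXY
  have h2 : |p| * |Y - q / p * X| = |p * Y - q * X| := by
    rw [← abs_mul]
    congr 1
    have : p ≠ 0 := abs_pos.1 hp0
    field_simp
  have h3 : |Y - q / p * X| ≤ (4 * (1 + S)) * |p * Y - q * X| := by
    rw [← h2, ← mul_assoc]
    refine le_mul_of_one_le_left (abs_nonneg _) ?_
    rwa [div_le_iff₀ (by positivity), mul_comm] at hpl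
  calc |Y - q / p * X| ≤ (4 * (1 + S)) * |p * Y - q * X| := h3
    _ ≤ (4 * (1 + S)) * (c * S * (1 + S) * |X| + R₁) := by gcongr
    _ = _ := by ring

/-- a coefficient vanishes if it is asymptotically negligible -/
theorem eq_zero_of_asymp (hunb : ∀ N : ℝ, ∃ x y, (x, y) ∈ K ∧ N < |x|) {a : ℝ}
    (h : ∀ ε : ℝ, 0 < ε → ∃ R' : ℝ, ∀ x y, (x, y) ∈ K → |a| * |x| ≤ ε * |x| + R') : a = 0 := by
  by_contra ha
  have ha' : 0 < |a| := abs_pos.2 ha
  obtain ⟨R', hR'⟩ := h (|a| / 2) (by positivity)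
  obtain ⟨x, y, hxy, hx⟩ := hunb (2 * |R'| / |a|)
  have h1 := hR' x y hxy
  rw [div_lt_iff₀ ha'] at hx
  have := le_abs_self R'
  linarith

theorem abs_sub_le_of_asymp (hunb : ∀ N : ℝ, ∃ x y, (x, y) ∈ K ∧ N < |x|) {a b C C' R R' : ℝ}
    (h : ∀ x y, (x, y) ∈ K → |y - a * x| ≤ C * |x| + R)
    (h' : ∀ x y, (x, y) ∈ K → |y - b * x| ≤ C' * |x| + R') : |a - b| ≤ C + C' := by
  by_contra hcon
  push Not at hcon
  set d := |a - b| - (C + C') with hd
  have hd0 : 0 < d := by rw [hd]; linarith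
  obtain ⟨x, y, hxy, hx⟩ := hunb ((R + R') / d)
  have h1 := h x y hxy
  have h2 := h' x y hxy
  have h3 : |a - b| * |x| ≤ |y - a * x| + |y - b * x| := by
    rw [← abs_mul]
    have : (a - b) * x = (y - b * x) - (y - a * x) := by ring
    rw [this]
    refine (abs_sub _ _).trans ?_
    linarith
  rw [div_lt_iff₀ hd0] at hx
  have h4 : |a - b| = d + (C + C') := by rw [hd]; ring
  rw [h4] at h3
  nlinarith

/-- asymptotic direction -/
theorem exists_slope (hunb : ∀ N : ℝ, ∃ x y, (x, y) ∈ K ∧ N < |x|) {S R : ℝ} (hS : 0 ≤ S)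
    (hR : 0 ≤ R) (hg : ∀ x y, (x, y) ∈ K → |y| ≤ S * |x| + R)
    (hK : ∀ c : ℝ, 0 < c → ∃ p q t₁ t₂ σ, KPar K c p q t₁ t₂ σ) :
    ∃ m : ℝ, ∀ ε : ℝ, 0 < ε → ∃ R' : ℝ, ∀ x y, (x, y) ∈ K → |y - m * x| ≤ ε * |x| + R' := by
  set C : ℝ := 4 * S * (1 + S) ^ 2 with hC
  have hC0 : 0 ≤ C := by positivity
  set c₀ : ℝ := 1 / (2 * S * (1 + S) + 1) with hc₀
  have hden : 0 < 2 * S * (1 + S) + 1 := by positivity
  have hc₀0 : 0 < c₀ := by positivity
  let c : ℕ → ℝ := fun k => c₀ * (1 / ((k : ℝ) + 1))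
  have hc0 : ∀ k, 0 < c k := fun k => by positivity
  have hcle : ∀ k, c k ≤ c₀ := fun k => by
    refine mul_le_of_le_one_right hc₀0.le ?_
    rw [div_le_one (by positivity)]
    have : (0 : ℝ) ≤ k := Nat.cast_nonneg k
    linarith
  have hanti : ∀ k l, k ≤ l → c l ≤ c k := fun k l hkl => by
    refine mul_le_mul_of_nonneg_left ?_ hc₀0.le
    refine one_div_le_one_div_of_le (by positivity) ?_
    have : (k : ℝ) ≤ l := by exact_mod_cast hkl
    linarith
  have hclim : Tendsto c atTop (𝓝 0) := by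
    have := (tendsto_one_div_add_atTop_nhds_zero_nat (𝕜 := ℝ)).const_mul c₀
    rwa [mul_zero] at this
  have hck : ∀ k, c k * S * (1 + S) ≤ 1 / 2 := fun k => by
    have h1 : c k * S * (1 + S) ≤ c₀ * S * (1 + S) := by gcongr; exact hcle k
    refine h1.trans ?_
    rw [hc₀, one_div, mul_assoc, inv_mul_le_iff₀ hden]
    nlinarith
  choose p q t₁ t₂ σ hpar using hK
  have hex : ∀ k, ∃ m R' : ℝ, ∀ X Y, (X, Y) ∈ K → |Y - m * X| ≤ C * c k * |X| + R' := fun k => by
    exact slope_bound hunb hS hR hg (hc0 k) (hck k) (hpar (c k) (hc0 k))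
  choose m R' hm using hex
  have hdist : ∀ k l, |m k - m l| ≤ C * c k + C * c l := fun k l =>
    abs_sub_le_of_asymp hunb (hm k) (hm l)
  have hcauchy : CauchySeq m := by
    refine cauchySeq_of_le_tendsto_0 (fun N => 2 * C * c N) (fun n k N hn hk => ?_) ?_
    · rw [Real.dist_eq]
      refine (hdist n k).trans ?_
      have h1 := mul_le_mul_of_nonneg_left (hanti N n hn) hC0
      have h2 := mul_le_mul_of_nonneg_left (hanti N k hk) hC0
      linarith
    · have := hclim.const_mul (2 * C)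
      rwa [mul_zero] at this
  obtain ⟨μ, hμ⟩ := cauchySeq_tendsto_of_complete hcauchy
  refine ⟨μ, fun ε hε => ?_⟩
  have hlim : ∀ k, |m k - μ| ≤ C * c k := by
    intro k
    have h1 : Tendsto (fun l => |m k - m l|) atTop (𝓝 |m k - μ|) :=
      (tendsto_const_nhds.sub hμ).abs
    have h2 : Tendsto (fun l => C * c k + C * c l) atTop (𝓝 (C * c k + C * 0)) :=
      tendsto_const_nhds.add (hclim.const_mul C)
    rw [mul_zero, add_zero] at h2
    exact le_of_tendsto_of_tendsto' h1 h2 (hdist k)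
  have hev : ∀ᶠ k in atTop, 2 * C * c k < ε := by
    have := hclim.const_mul (2 * C)
    rw [mul_zero] at this
    exact this.eventually_lt_const hε
  obtain ⟨k, hk⟩ := hev.exists
  refine ⟨R' k, fun x y hxy => ?_⟩
  have h1 := hm k x y hxy
  have h2 : |y - μ * x| ≤ |y - m k * x| + |m k - μ| * |x| := by
    rw [← abs_mul]
    have : y - μ * x = (y - m k * x) + (m k - μ) * x := by ring
    rw [this]
    exact abs_add_le _ _
  have h3 : |m k - μ| * |x| ≤ C * c k * |x| := by gcongr; exact hlim k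
  have h4 : 2 * C * c k * |x| ≤ ε * |x| := by gcongr
  linarith

/-- backward orbits of a contraction -/
theorem const_of_backward {ν lam t ns : ℝ} {X n : ℕ → ℝ} (hν0 : ν ≠ 0) (hνlt : |ν| ≤ 1 / 2)
    (hlam0 : lam ≠ 0) (hratio : |ν| / |lam| ≤ 1 / 2)
    (hnrec : ∀ k, n k - ns = ν * (n (k + 1) - ns))
    (hX : ∀ k, |lam| * |X (k + 1)| ≤ |X k| + |t| + |n (k + 1)|)
    (hasym : ∀ ε : ℝ, 0 < ε → ∃ R' : ℝ, ∀ k, |n k| ≤ ε * |X k| + R') : n 0 = ns := by
  have hnk : ∀ k, |n k - ns| * |ν| ^ k = |n 0 - ns| := by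
    intro k
    induction k with
    | zero => simp
    | succ k ih =>
      rw [← ih, hnrec k, abs_mul, pow_succ]; ring
  obtain ⟨B, hB⟩ : ∃ B : ℝ, B = |t| + |ns| + |n 0 - ns| * |ν|⁻¹ := ⟨_, rfl⟩
  have hB0 : 0 ≤ B := by rw [hB]; positivity
  have hνpos : 0 < |ν| := abs_pos.2 hν0
  have hl : 0 < |lam| := abs_pos.2 hlam0
  have hXrec : ∀ k, |X (k + 1)| * |ν| ^ (k + 1) ≤ 1 / 2 * (|X k| * |ν| ^ k + B) := by
    intro k
    have h2 := hX k
    have h5 : |ν| ^ k ≤ 1 := pow_le_one₀ (abs_nonneg _) (by linarith)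
    have h3 : |n (k + 1)| * |ν| ^ k ≤ |ns| + |n 0 - ns| * |ν|⁻¹ := by
      have h4 : |n (k + 1)| ≤ |ns| + |n (k + 1) - ns| := by
        have := abs_add_le ns (n (k + 1) - ns)
        rwa [add_sub_cancel] at this
      have h6 : |n (k + 1) - ns| * |ν| ^ k = |n 0 - ns| * |ν|⁻¹ := by
        rw [← hnk (k + 1), pow_succ]; field_simp
      calc |n (k + 1)| * |ν| ^ k ≤ (|ns| + |n (k + 1) - ns|) * |ν| ^ k := by gcongr
        _ = |ns| * |ν| ^ k + |n (k + 1) - ns| * |ν| ^ k := by ring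
        _ ≤ |ns| * 1 + |n 0 - ns| * |ν|⁻¹ := by rw [h6]; gcongr
        _ = _ := by ring
    calc |X (k + 1)| * |ν| ^ (k + 1) = |ν| / |lam| * ((|lam| * |X (k + 1)|) * |ν| ^ k) := by
          rw [pow_succ]; field_simp
      _ ≤ |ν| / |lam| * ((|X k| + |t| + |n (k + 1)|) * |ν| ^ k) := by gcongr
      _ = |ν| / |lam| * (|X k| * |ν| ^ k + |t| * |ν| ^ k + |n (k + 1)| * |ν| ^ k) := by ring
      _ ≤ 1 / 2 * (|X k| * |ν| ^ k + |t| * 1 + (|ns| + |n 0 - ns| * |ν|⁻¹)) := by gcongr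
      _ = 1 / 2 * (|X k| * |ν| ^ k + B) := by rw [hB]; ring
  have hXb : ∀ k, |X k| * |ν| ^ k ≤ |X 0| + B := by
    intro k
    induction k with
    | zero => simp only [pow_zero, mul_one]; linarith
    | succ k ih =>
      refine (hXrec k).trans ?_
      have := abs_nonneg (X 0)
      linarith
  have hfin : |n 0 - ns| = 0 := by
    refine le_antisymm (le_of_forall_pos_le_add fun δ hδ => ?_) (abs_nonneg _)
    rw [zero_add]
    obtain ⟨ε, hε⟩ : ∃ ε : ℝ, ε = δ / (2 * (|X 0| + B + 1)) := ⟨_, rfl⟩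
    have hX00 := abs_nonneg (X 0)
    have hε0 : 0 < ε := by rw [hε]; positivity
    obtain ⟨R', hR'⟩ := hasym ε hε0
    have hεb : ε * (|X 0| + B) ≤ δ / 2 := by
      rw [hε, div_mul_eq_mul_div, div_le_div_iff₀ (by positivity) (by norm_num)]
      nlinarith
    have hlim : Tendsto (fun k : ℕ => |ν| ^ k * (|R'| + |ns|)) atTop (𝓝 0) := by
      have := (tendsto_pow_atTop_nhds_zero_of_lt_one (abs_nonneg ν) (by linarith)).mul_const
        (|R'| + |ns|)
      rwa [zero_mul] at this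
    obtain ⟨k, hk⟩ := (hlim.eventually_lt_const (half_pos hδ)).exists
    have h1 := hR' k
    have h2 : |n k - ns| ≤ ε * |X k| + (|R'| + |ns|) := by
      have := abs_sub (n k) ns
      have := le_abs_self R'
      linarith
    calc |n 0 - ns| = |n k - ns| * |ν| ^ k := (hnk k).symm
      _ ≤ (ε * |X k| + (|R'| + |ns|)) * |ν| ^ k := by gcongr
      _ = ε * (|X k| * |ν| ^ k) + |ν| ^ k * (|R'| + |ns|) := by ring
      _ ≤ ε * (|X 0| + B) + |ν| ^ k * (|R'| + |ns|) := by gcongr; exact hXb k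
      _ ≤ δ := by linarith
  rwa [abs_eq_zero, sub_eq_zero] at hfin

/-- an invariant set with linear growth is contained in a line -/
theorem line_of_growth (hunb : ∀ N : ℝ, ∃ x y, (x, y) ∈ K ∧ N < |x|) {S R : ℝ} (hS : 0 ≤ S)
    (hR : 0 ≤ R) (hg : ∀ x y, (x, y) ∈ K → |y| ≤ S * |x| + R)
    (hK : ∀ c : ℝ, 0 < c → ∃ p q t₁ t₂ σ, KPar K c p q t₁ t₂ σ) :
    ∃ a b : ℝ, ∀ x y, (x, y) ∈ K → y = a + b * x := by
  obtain ⟨m, hm⟩ := exists_slope hunb hS hR hg hK
  -- choose a small `c`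
  obtain ⟨c, hc⟩ : ∃ c : ℝ, c = 1 / (2 * (1 + m ^ 2)) := ⟨_, rfl⟩
  have hc0 : 0 < c := by rw [hc]; positivity
  obtain ⟨p, q, t₁, t₂, σ, hpar⟩ := hK c hc0
  obtain ⟨hpq, hσ, hfwd, hinv⟩ := hpar
  obtain ⟨hp, hq⟩ := abs_le_one_of_sq hpq
  have hσ1 := abs_eq_one_of_sq hσ
  obtain ⟨ν, hν⟩ : ∃ ν : ℝ, ν = σ * c * (p + m * q) := ⟨_, rfl⟩
  obtain ⟨lam, hlam⟩ : ∃ lam : ℝ, lam = p - σ * c * q * m := ⟨_, rfl⟩
  obtain ⟨κ, hκ⟩ : ∃ κ : ℝ, κ = t₂ - m * t₁ := ⟨_, rfl⟩
  obtain ⟨a, ha⟩ : ∃ a : ℝ, a = q - m * p + σ * c * m * (p + m * q) := ⟨_, rfl⟩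
  have hN : ∀ x y, (t₂ + q * x + σ * p * (c * y)) - m * (t₁ + p * x - σ * q * (c * y)) =
      κ + a * x + ν * (y - m * x) := by
    intro x y
    rw [hκ, hν, ha]; ring
  have ha0 : a = 0 := by
    refine eq_zero_of_asymp hunb fun ε hε => ?_
    have hden : 0 < (1 + c * S) + |ν| := by positivity
    obtain ⟨η, hη⟩ : ∃ η : ℝ, η = ε / ((1 + c * S) + |ν|) := ⟨_, rfl⟩
    have hη0 : 0 < η := by rw [hη]; positivity
    obtain ⟨R', hR'⟩ := hm η hη0
    refine ⟨η * (|t₁| + c * R) + R' + |κ| + |ν| * R', fun x y hxy => ?_⟩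
    have h1 := hR' _ _ (hfwd x y hxy)
    rw [hN] at h1
    have h2 := hR' _ _ hxy
    have h3 := hg _ _ hxy
    obtain ⟨X, hX⟩ : ∃ X : ℝ, X = t₁ + p * x - σ * q * (c * y) := ⟨_, rfl⟩
    rw [← hX] at h1
    have hXb : |X| ≤ |t₁| + |x| + c * |y| := by
      rw [hX]
      refine (abs_sub _ _).trans ?_
      have h4 : |t₁ + p * x| ≤ |t₁| + |x| := by
        refine (abs_add_le _ _).trans ?_
        rw [abs_mul]
        have := mul_le_of_le_one_left (abs_nonneg x) hp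
        linarith
      have h5 : |σ * q * (c * y)| ≤ c * |y| := by
        rw [abs_mul, abs_mul, abs_mul, hσ1, one_mul, abs_of_pos hc0]
        exact mul_le_of_le_one_left (by positivity) hq
      linarith
    have h4 : |a| * |x| ≤ |κ + a * x + ν * (y - m * x)| + |κ| + |ν| * |y - m * x| := by
      rw [← abs_mul, ← abs_mul]
      have : a * x = (κ + a * x + ν * (y - m * x)) - κ - ν * (y - m * x) := by ring
      calc |a * x| = |(κ + a * x + ν * (y - m * x)) - κ - ν * (y - m * x)| := by rw [← this]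
        _ ≤ |(κ + a * x + ν * (y - m * x)) - κ| + |ν * (y - m * x)| := abs_sub _ _
        _ ≤ |κ + a * x + ν * (y - m * x)| + |κ| + |ν * (y - m * x)| := by
            gcongr; exact abs_sub _ _
    have h5 : |X| ≤ (1 + c * S) * |x| + (|t₁| + c * R) := by
      have := mul_le_mul_of_nonneg_left h3 hc0.le
      linarith
    have h6 : η * |X| ≤ η * ((1 + c * S) * |x| + (|t₁| + c * R)) :=
      mul_le_mul_of_nonneg_left h5 hη0.le
    have h7 : |ν| * |y - m * x| ≤ |ν| * (η * |x| + R') :=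
      mul_le_mul_of_nonneg_left h2 (abs_nonneg _)
    have h8 : η * ((1 + c * S) + |ν|) = ε := by rw [hη]; field_simp
    calc |a| * |x| ≤ |κ + a * x + ν * (y - m * x)| + |κ| + |ν| * |y - m * x| := h4
      _ ≤ (η * ((1 + c * S) * |x| + (|t₁| + c * R)) + R') + |κ| + |ν| * (η * |x| + R') := by
          linarith
      _ = (η * ((1 + c * S) + |ν|)) * |x| + (η * (|t₁| + c * R) + R' + |κ| + |ν| * R') := by ring
      _ = _ := by rw [h8]
  rw [ha0] at hN ha
  have hlamν : lam * (p + m * q) = 1 := by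
    have h1 : σ * c * m * (p + m * q) = m * p - q := by linarith
    calc lam * (p + m * q) = p * (p + m * q) - q * (σ * c * m * (p + m * q)) := by
          rw [hlam]; ring
      _ = p * (p + m * q) - q * (m * p - q) := by rw [h1]
      _ = p ^ 2 + q ^ 2 := by ring
      _ = 1 := hpq
  have hpm0 : p + m * q ≠ 0 := by
    intro h; rw [h, mul_zero] at hlamν; exact zero_ne_one hlamν
  have hpmsq : (p + m * q) ^ 2 ≤ 1 + m ^ 2 := by
    have : (p + m * q) ^ 2 + (m * p - q) ^ 2 = (p ^ 2 + q ^ 2) * (1 + m ^ 2) := by ring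
    rw [hpq, one_mul] at this
    nlinarith [sq_nonneg (m * p - q)]
  have hν0 : ν ≠ 0 := by
    rw [hν]
    have : σ ≠ 0 := by rintro rfl; norm_num at hσ
    exact mul_ne_zero (mul_ne_zero this hc0.ne') hpm0
  have hlam0 : lam ≠ 0 := by intro h; rw [h, zero_mul] at hlamν; exact zero_ne_one hlamν
  have hνabs : |ν| = c * |p + m * q| := by
    rw [hν, abs_mul, abs_mul, hσ1, one_mul, abs_of_pos hc0]
  have hcm : c * (1 + m ^ 2) = 1 / 2 := by rw [hc]; field_simp
  have hratio : |ν| / |lam| ≤ 1 / 2 := by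
    have h1 : |lam| * |p + m * q| = 1 := by rw [← abs_mul, hlamν, abs_one]
    have hl : 0 < |lam| := abs_pos.2 hlam0
    rw [div_le_iff₀ hl, hνabs]
    have h3 : c * |p + m * q| = c * (p + m * q) ^ 2 * |lam| := by
      rw [← sq_abs]
      calc c * |p + m * q| = c * |p + m * q| * (|lam| * |p + m * q|) := by rw [h1, mul_one]
        _ = _ := by ring
    rw [h3, ← hcm]
    gcongr
  have hνlt : |ν| ≤ 1 / 2 := by
    have h3 : |p + m * q| ≤ 1 + m ^ 2 := by
      have h4 := sq_abs (p + m * q)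
      have h5 := abs_nonneg (p + m * q)
      nlinarith [sq_nonneg m]
    rw [hνabs, ← hcm]
    gcongr
  have hν1 : 1 - ν ≠ 0 := by
    have := le_abs_self ν
    intro h
    linarith
  obtain ⟨ns, hns⟩ : ∃ ns : ℝ, ns = κ / (1 - ν) := ⟨_, rfl⟩
  have hκn : κ = ns - ν * ns := by rw [hns]; field_simp
  refine ⟨ns, m, fun x₀ y₀ h₀ => ?_⟩
  -- backward orbit
  have hback : ∃ X Y : ℕ → ℝ, X 0 = x₀ ∧ Y 0 = y₀ ∧ (∀ k, (X k, Y k) ∈ K) ∧
      ∀ k, X k = t₁ + p * X (k + 1) - σ * q * (c * Y (k + 1)) ∧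
        Y k = t₂ + q * X (k + 1) + σ * p * (c * Y (k + 1)) := by
    choose g₁ g₂ hg1 hg2 hg3 using hinv
    let s : ℕ → {w : ℝ × ℝ // w ∈ K} := fun k => Nat.rec ⟨(x₀, y₀), h₀⟩
      (fun _ w => ⟨(g₁ w.1.1 w.1.2 w.2, g₂ w.1.1 w.1.2 w.2), hg1 _ _ w.2⟩) k
    refine ⟨fun k => (s k).1.1, fun k => (s k).1.2, rfl, rfl, fun k => (s k).2, fun k => ?_⟩
    exact ⟨hg2 _ _ (s k).2, hg3 _ _ (s k).2⟩
  obtain ⟨X, Y, hX0, hY0, hmem, hrec⟩ := hback
  have hfin : Y 0 - m * X 0 = ns := by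
    refine const_of_backward (n := fun k => Y k - m * X k) (X := X) (t := t₁) hν0 hνlt hlam0
      hratio (fun k => ?_) (fun k => ?_) (fun ε hε => ?_)
    · have h1 := hN (X (k + 1)) (Y (k + 1))
      rw [← (hrec k).1, ← (hrec k).2, zero_mul, add_zero] at h1
      change Y k - m * X k - ns = ν * (Y (k + 1) - m * X (k + 1) - ns)
      rw [h1, hκn]; ring
    · have h1 : lam * X (k + 1) = X k - t₁ + σ * q * (c * (Y (k + 1) - m * X (k + 1))) := by
        rw [(hrec k).1, hlam]; ring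
      rw [← abs_mul, h1]
      refine (abs_add_le _ _).trans ?_
      have h3 : |σ * q * (c * (Y (k + 1) - m * X (k + 1)))| ≤ |Y (k + 1) - m * X (k + 1)| := by
        rw [abs_mul, abs_mul, abs_mul, hσ1, one_mul, abs_of_pos hc0]
        have h4 : c ≤ 1 := by
          rw [hc, div_le_one (by positivity)]; nlinarith [sq_nonneg m]
        have h5 : c * |Y (k + 1) - m * X (k + 1)| ≤ |Y (k + 1) - m * X (k + 1)| :=
          mul_le_of_le_one_left (abs_nonneg _) h4
        have h6 : |q| * (c * |Y (k + 1) - m * X (k + 1)|) ≤ c * |Y (k + 1) - m * X (k + 1)| :=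
          mul_le_of_le_one_left (by positivity) hq
        linarith
      have := abs_sub (X k) t₁
      linarith
    · obtain ⟨R', hR'⟩ := hm ε hε
      exact ⟨R', fun k => hR' _ _ (hmem k)⟩
  rw [hX0, hY0] at hfin
  linarith

end Pool.Agent.Lib.MP_1755e3_an
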