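import Pool.Agent.Lib.MP_1755e3_an.ExpLim
import Pool.Agent.Lib.MP_1755e3_an.Growth

set_option autoImplicit false

open Set Metric Filter Topology NormedSpace

namespace Pool.Agent.Lib.MP_1755e3_an

/-- three-dimensional space, in which affine maps of the plane act linearly -/
abbrev E3 := ℝ × ℝ × ℝ

/-- coordinate functional -/
noncomputable def cf (a b c : ℝ) : E3 →L[ℝ] ℝ :=
  a • ContinuousLinearMap.fst ℝ ℝ (ℝ × ℝ) +
    b • (ContinuousLinearMap.fst ℝ ℝ ℝ).comp (ContinuousLinearMap.snd ℝ ℝ (ℝ × ℝ)) +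
    c • (ContinuousLinearMap.snd ℝ ℝ ℝ).comp (ContinuousLinearMap.snd ℝ ℝ (ℝ × ℝ))

noncomputable def row1 (a b c : ℝ) : E3 →L[ℝ] E3 := (cf a b c).prod 0
noncomputable def row2 (a b c : ℝ) : E3 →L[ℝ] E3 := (0 : E3 →L[ℝ] ℝ).prod ((cf a b c).prod 0)

/-- the linear map with matrix `(a b t; d e s; 0 0 g)` -/
noncomputable def mat (a b t d e s g : ℝ) : E3 →L[ℝ] E3 :=
  (cf a b t).prod ((cf d e s).prod (cf 0 0 g))

theorem mat_apply (a b t d e s g : ℝ) (v : E3) :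
    mat a b t d e s g v =
      (a * v.1 + b * v.2.1 + t * v.2.2, d * v.1 + e * v.2.1 + s * v.2.2, g * v.2.2) := by
  simp [mat, cf]

theorem mat_one : mat 1 0 0 0 1 0 1 = 1 := by
  ext <;> simp [mat_apply]

theorem mat_eq (a b t d e s g : ℝ) : mat a b t d e s g =
    a • mat 1 0 0 0 0 0 0 + b • mat 0 1 0 0 0 0 0 + t • mat 0 0 1 0 0 0 0 +
    d • mat 0 0 0 1 0 0 0 + e • mat 0 0 0 0 1 0 0 + s • mat 0 0 0 0 0 1 0 +
    g • mat 0 0 0 0 0 0 1 := by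
  ext <;> simp [mat_apply]

theorem tendsto_mat {ι : Type*} {l : Filter ι} {a b t d e s g : ι → ℝ}
    {a' b' t' d' e' s' g' : ℝ} (ha : Tendsto a l (𝓝 a')) (hb : Tendsto b l (𝓝 b'))
    (ht : Tendsto t l (𝓝 t')) (hd : Tendsto d l (𝓝 d')) (he : Tendsto e l (𝓝 e'))
    (hs : Tendsto s l (𝓝 s')) (hg : Tendsto g l (𝓝 g')) :
    Tendsto (fun i => mat (a i) (b i) (t i) (d i) (e i) (s i) (g i)) l
      (𝓝 (mat a' b' t' d' e' s' g')) := by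
  simp_rw [mat_eq (a _), mat_eq a']
  exact ((((((ha.smul_const _).add (hb.smul_const _)).add (ht.smul_const _)).add
    (hd.smul_const _)).add (he.smul_const _)).add (hs.smul_const _)).add (hg.smul_const _)

/-- lift of a planar set -/
def lift (K : Set (ℝ × ℝ)) : Set E3 := {v | v.2.2 = 1 ∧ (v.1, v.2.1) ∈ K}

theorem isClosed_lift {K : Set (ℝ × ℝ)} (hK : IsClosed K) : IsClosed (lift K) := by
  have h1 : IsClosed {v : E3 | v.2.2 = 1} := isClosed_eq (by fun_prop) continuous_const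
  have h2 : IsClosed ((fun v : E3 => (v.1, v.2.1)) ⁻¹' K) := hK.preimage (by fun_prop)
  exact h1.inter h2

/-- the semigroup of linear maps preserving the lift of `K` -/
def Sg (K : Set (ℝ × ℝ)) : Set (E3 →L[ℝ] E3) := {T | ∀ v ∈ lift K, T v ∈ lift K}

theorem one_mem_Sg {K : Set (ℝ × ℝ)} : (1 : E3 →L[ℝ] E3) ∈ Sg K := fun _ hv => hv

theorem mul_mem_Sg {K : Set (ℝ × ℝ)} {S T : E3 →L[ℝ] E3} (hS : S ∈ Sg K) (hT : T ∈ Sg K) :
    S * T ∈ Sg K := fun v hv => hS _ (hT v hv)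

theorem pow_mem_Sg {K : Set (ℝ × ℝ)} {T : E3 →L[ℝ] E3} (hT : T ∈ Sg K) (n : ℕ) :
    T ^ n ∈ Sg K := by
  induction n with
  | zero => rw [pow_zero]; exact one_mem_Sg
  | succ n ih => rw [pow_succ]; exact mul_mem_Sg ih hT

theorem mem_Sg_of_tendsto {K : Set (ℝ × ℝ)} (hK : IsClosed K) {ι : Type*} {l : Filter ι} [l.NeBot]
    {T : ι → E3 →L[ℝ] E3} {T' : E3 →L[ℝ] E3} (hT : Tendsto T l (𝓝 T'))
    (hmem : ∀ᶠ i in l, T i ∈ Sg K) : T' ∈ Sg K := by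
  intro v hv
  have h1 : Tendsto (fun i => T i v) l (𝓝 (T' v)) :=
    ((ContinuousLinearMap.apply ℝ E3 v).continuous.tendsto T').comp hT
  exact (isClosed_lift hK).mem_of_tendsto h1 (hmem.mono fun i hi => hi v hv)

/-- the linear map with the given parameters -/
noncomputable def Tm (c p q t₁ t₂ σ : ℝ) : E3 →L[ℝ] E3 :=
  mat p (-(σ * q * c)) t₁ q (σ * p * c) t₂ 1

/-- its inverse -/
noncomputable def Ti (c p q t₁ t₂ σ : ℝ) : E3 →L[ℝ] E3 :=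
  mat p q (-(p * t₁ + q * t₂)) (-(σ * c⁻¹ * q)) (σ * c⁻¹ * p) (σ * c⁻¹ * (q * t₁ - p * t₂)) 1

theorem Ti_mul_Tm' {c p q t₁ t₂ σ c' p' q' t₁' t₂' : ℝ} (hσ : σ ^ 2 = 1) :
    Ti c p q t₁ t₂ σ * Tm c' p' q' t₁' t₂' σ =
      mat (p * p' + q * q') (-(σ * c' * (p * q' - q * p'))) (p * (t₁' - t₁) + q * (t₂' - t₂))
        (σ * c⁻¹ * (p * q' - q * p')) (c⁻¹ * c' * (p * p' + q * q'))
        (σ * c⁻¹ * (p * (t₂' - t₂) - q * (t₁' - t₁))) 1 := by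
  have h1 : ∀ v : E3, (Ti c p q t₁ t₂ σ * Tm c' p' q' t₁' t₂' σ) v =
      Ti c p q t₁ t₂ σ (Tm c' p' q' t₁' t₂' σ v) := fun v => rfl
  refine ContinuousLinearMap.ext fun v => ?_
  rw [h1, Ti, Tm, mat_apply, mat_apply, mat_apply]
  refine Prod.ext ?_ (Prod.ext ?_ ?_)
  · dsimp only; ring
  · dsimp only
    have e1 : σ * c⁻¹ * (p * q' - q * p') * v.1 + c⁻¹ * c' * (p * p' + q * q') * v.2.1 +
        σ * c⁻¹ * (p * (t₂' - t₂) - q * (t₁' - t₁)) * v.2.2 =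
        σ * c⁻¹ * (p * q' - q * p') * v.1 + σ ^ 2 * (c⁻¹ * c' * (p * p' + q * q')) * v.2.1 +
        σ * c⁻¹ * (p * (t₂' - t₂) - q * (t₁' - t₁)) * v.2.2 := by rw [hσ, one_mul]
    rw [e1]
    ring
  · dsimp only; ring

theorem Ti_mul_Tm {c p q t₁ t₂ σ : ℝ} (hc : c ≠ 0) (hpq : p ^ 2 + q ^ 2 = 1) (hσ : σ ^ 2 = 1) :
    Ti c p q t₁ t₂ σ * Tm c p q t₁ t₂ σ = 1 := by
  rw [Ti_mul_Tm' hσ, ← mat_one]
  congr 1
  · nlinarith
  · ring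
  · ring
  · ring
  · rw [inv_mul_cancel₀ hc, one_mul]; nlinarith
  · ring

theorem Tm_mem_Sg {K : Set (ℝ × ℝ)} {c p q t₁ t₂ σ : ℝ} (h : KPar K c p q t₁ t₂ σ) :
    Tm c p q t₁ t₂ σ ∈ Sg K := by
  rintro ⟨x, y, z⟩ ⟨hz, hxy⟩
  change z = 1 at hz
  subst hz
  have := h.2.2.1 x y hxy
  rw [Tm, mat_apply]
  refine ⟨by simp, ?_⟩
  convert this using 2
  · simp only [mul_one]; ring
  · simp only [mul_one]; ring

theorem Ti_mem_Sg {K : Set (ℝ × ℝ)} {c p q t₁ t₂ σ : ℝ} (hc : c ≠ 0)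
    (h : KPar K c p q t₁ t₂ σ) : Ti c p q t₁ t₂ σ ∈ Sg K := by
  rintro ⟨X, Y, z⟩ ⟨hz, hXY⟩
  change z = 1 at hz
  subst hz
  obtain ⟨x, y, hxy, hX, hY⟩ := h.2.2.2 X Y hXY
  have h1 : ((X, Y, 1) : E3) = Tm c p q t₁ t₂ σ (x, y, 1) := by
    rw [Tm, mat_apply]
    refine Prod.ext ?_ (Prod.ext ?_ ?_)
    · simp only [mul_one]; rw [hX]; ring
    · simp only [mul_one]; rw [hY]; ring
    · simp
  have h2 : Ti c p q t₁ t₂ σ (X, Y, 1) = (x, y, 1) := by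
    rw [h1]
    change (Ti c p q t₁ t₂ σ * Tm c p q t₁ t₂ σ) (x, y, 1) = _
    rw [Ti_mul_Tm hc h.1 h.2.1]
    rfl
  rw [h2]
  exact ⟨rfl, hxy⟩

end Pool.Agent.Lib.MP_1755e3_an
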