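import Pool.Agent.Lib.MP_1755e3_an.OneParam

set_option autoImplicit false

open Set Metric Filter Topology NormedSpace

namespace Pool.Agent.Lib.MP_1755e3_an

variable {K : Set (ℝ × ℝ)}

theorem exp_neg_mul_exp (ξ : E3 →L[ℝ] E3) (t : ℝ) : exp ((-t) • ξ) * exp (t • ξ) = 1 := by
  have h : Commute ((-t) • ξ) (t • ξ) := ((Commute.refl ξ).smul_left _).smul_right _
  have h0 : (-t) • ξ + t • ξ = 0 := by rw [← add_smul, neg_add_cancel, zero_smul]
  let _ : NormedAlgebra ℚ (E3 →L[ℝ] E3) := NormedAlgebra.restrictScalars ℚ ℝ _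
  rw [← exp_add_of_commute h, h0, exp_zero]

theorem hasDerivAt_flow (ξ : E3 →L[ℝ] E3) (v : E3) (t : ℝ) :
    HasDerivAt (fun u : ℝ => exp (u • ξ) v) (ξ (exp (t • ξ) v)) t := by
  have h1 := hasDerivAt_exp_smul_const' (𝕂 := ℝ) ξ t
  exact ((ContinuousLinearMap.apply ℝ E3 v).hasFDerivAt.comp_hasDerivAt t h1)

theorem hasDerivAt_fst {w : ℝ → E3} {w' : E3} {t : ℝ} (h : HasDerivAt w w' t) :
    HasDerivAt (fun u => (w u).1) w'.1 t :=
  (ContinuousLinearMap.fst ℝ ℝ (ℝ × ℝ)).hasFDerivAt.comp_hasDerivAt t h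

theorem hasDerivAt_snd {w : ℝ → E3} {w' : E3} {t : ℝ} (h : HasDerivAt w w' t) :
    HasDerivAt (fun u => (w u).2.1) w'.2.1 t :=
  ((ContinuousLinearMap.fst ℝ ℝ ℝ).comp
    (ContinuousLinearMap.snd ℝ ℝ (ℝ × ℝ))).hasFDerivAt.comp_hasDerivAt t h

theorem hasDerivAt_trd {w : ℝ → E3} {w' : E3} {t : ℝ} (h : HasDerivAt w w' t) :
    HasDerivAt (fun u => (w u).2.2) w'.2.2 t :=
  ((ContinuousLinearMap.snd ℝ ℝ ℝ).comp
    (ContinuousLinearMap.snd ℝ ℝ (ℝ × ℝ))).hasFDerivAt.comp_hasDerivAt t h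

theorem eq_of_deriv_zero {u : ℝ → ℝ} (h : ∀ t, HasDerivAt u 0 t) (s t : ℝ) : u s = u t :=
  is_const_of_deriv_eq_zero (fun t => (h t).differentiableAt) (fun t => (h t).deriv) s t

/-- The growth bound in the case in which the flow moves the vertical direction. -/
theorem growth_of_flow {x₀ B : ℝ} (hx₀ : ∀ y, (x₀, y) ∈ K → |y| ≤ B) {β : ℝ} {ξ : E3 →L[ℝ] E3}
    (hβ : β ≠ 0) (hξ : (ξ (0, 1, 0)).1 = β) (hflow : ∀ t : ℝ, exp (t • ξ) ∈ Sg K) :
    ∃ S R : ℝ, 0 ≤ S ∧ 0 ≤ R ∧ ∀ x y, (x, y) ∈ K → |y| ≤ S * |x| + R := by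
  have hcont : Continuous fun t : ℝ => exp (t • ξ) := by
    let _ : NormedAlgebra ℚ (E3 →L[ℝ] E3) := NormedAlgebra.restrictScalars ℚ ℝ _
    exact (exp_continuous (𝔸 := E3 →L[ℝ] E3)).comp (continuous_id.smul continuous_const)
  let b : ℝ → ℝ := fun t => (exp (t • ξ) ((0, 1, 0) : E3)).1
  have hb : HasDerivAt b β 0 := by
    have h1 := hasDerivAt_fst (hasDerivAt_flow ξ (0, 1, 0) 0)
    rw [zero_smul, exp_zero] at h1
    change HasDerivAt b (ξ (0, 1, 0)).1 0 at h1
    rwa [hξ] at h1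
  have hb0 : b 0 = 0 := by
    simp only [b]
    rw [zero_smul, exp_zero]
    rfl
  -- choice of `t₀`
  obtain ⟨t₀, ht₀, hs1, hs2⟩ : ∃ t₀ : ℝ, 0 < t₀ ∧ 0 < b t₀ * β ∧ b (-t₀) * β < 0 := by
    have h1 := hb.isLittleO
    have h2 := h1.bound (show 0 < |β| / 2 by positivity)
    obtain ⟨r, hr, hr2⟩ := Metric.eventually_nhds_iff.1 h2
    have key : ∀ t : ℝ, |t| < r → |b t - t * β| ≤ |β| / 2 * |t| := by
      intro t ht
      have := hr2 (y := t) (by rwa [Real.dist_eq, sub_zero])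
      rw [hb0, sub_zero, sub_zero, smul_eq_mul] at this
      exact this
    have hβ2 : 0 < |β| := abs_pos.2 hβ
    have hββ : |β| * |β| = β * β := abs_mul_abs_self β
    refine ⟨r / 2, by positivity, ?_, ?_⟩
    · have h3 := key (r / 2) (by rw [abs_of_pos (by positivity)]; linarith)
      rw [abs_of_pos (show 0 < r / 2 by positivity)] at h3
      have h4 : |(b (r / 2) - r / 2 * β) * β| ≤ |β| / 2 * (r / 2) * |β| := by
        rw [abs_mul]
        exact mul_le_mul_of_nonneg_right h3 (abs_nonneg _)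
      have h5 := neg_le_of_abs_le h4
      have h6 : 0 < β * β := by rw [← hββ]; positivity
      nlinarith
    · have h3 := key (-(r / 2)) (by rw [abs_neg, abs_of_pos (by positivity)]; linarith)
      rw [abs_neg, abs_of_pos (show 0 < r / 2 by positivity)] at h3
      have h4 : |(b (-(r / 2)) - -(r / 2) * β) * β| ≤ |β| / 2 * (r / 2) * |β| := by
        rw [abs_mul]
        exact mul_le_mul_of_nonneg_right h3 (abs_nonneg _)
      have h5 := le_of_abs_le h4
      have h6 : 0 < β * β := by rw [← hββ]; positivity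
      nlinarith
  obtain ⟨M, hM⟩ : ∃ M : ℝ, ∀ t ∈ Icc (-t₀) t₀, ‖exp (t • ξ)‖ ≤ M := by
    obtain ⟨M, hM⟩ := (isCompact_Icc (a := -t₀) (b := t₀)).exists_bound_of_continuousOn
      hcont.continuousOn
    exact ⟨M, hM⟩
  have hM0 : 0 ≤ M := (norm_nonneg _).trans (hM 0 ⟨by linarith, ht₀.le⟩)
  have hmem1 : t₀ ∈ Icc (-t₀) t₀ := ⟨by linarith, le_rfl⟩
  have hmem2 : -t₀ ∈ Icc (-t₀) t₀ := ⟨le_rfl, by linarith⟩
  have hbt : b t₀ ≠ 0 := by intro h; rw [h, zero_mul] at hs1; exact lt_irrefl _ hs1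
  have hbt' : b (-t₀) ≠ 0 := by intro h; rw [h, zero_mul] at hs2; exact lt_irrefl _ hs2
  obtain ⟨κ, hκ⟩ : ∃ κ : ℝ, κ = min |b t₀| |b (-t₀)| := ⟨_, rfl⟩
  have hκ0 : 0 < κ := by rw [hκ]; exact lt_min (abs_pos.2 hbt) (abs_pos.2 hbt')
  obtain ⟨P, hP⟩ : ∃ P : ℝ, P = max |x₀| (max |B| 1) := ⟨_, rfl⟩
  have hP0 : 0 ≤ P := by rw [hP]; exact le_max_of_le_left (abs_nonneg _)
  refine ⟨2 * (M + 1) / κ, 2 * (M + |x₀|) / κ + M * P, by positivity, by positivity,
    fun x y hxy => ?_⟩
  by_contra hcon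
  push Not at hcon
  have hS0 : 0 ≤ 2 * (M + 1) / κ * |x| := by positivity
  have hR1 : 0 ≤ 2 * (M + |x₀|) / κ := by positivity
  have hMP : 0 ≤ M * P := by positivity
  have hy1 : M * P < |y| := by linarith
  have hy2 : (M * |x| + M) + |x₀| < κ * |y| := by
    have h1 : 2 * (M + 1) / κ * |x| + 2 * (M + |x₀|) / κ < |y| := by linarith
    have h2 : 2 * (M + 1) / κ * |x| + 2 * (M + |x₀|) / κ =
        (2 * (M + 1) * |x| + 2 * (M + |x₀|)) / κ := by ring
    rw [h2, div_lt_iff₀ hκ0] at h1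
    have := abs_nonneg x
    have := abs_nonneg x₀
    have : 0 ≤ M * |x| := by positivity
    nlinarith
  -- the first coordinate along the flow
  let h : ℝ → ℝ := fun t => (exp (t • ξ) ((x, y, 1) : E3)).1 - x₀
  have hh : Continuous h := by
    have h1 : Continuous fun t : ℝ => exp (t • ξ) ((x, y, 1) : E3) :=
      ((ContinuousLinearMap.apply ℝ E3 ((x, y, 1) : E3)).continuous).comp hcont
    exact (continuous_fst.comp h1).sub continuous_const
  have hest : ∀ t ∈ Icc (-t₀) t₀, |h t - b t * y| ≤ (M * |x| + M) + |x₀| := by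
    intro t ht
    have e1 : ((x, y, 1) : E3) = y • ((0, 1, 0) : E3) + (x • ((1, 0, 0) : E3) + (0, 0, 1)) := by
      simp
    have e2 : h t - b t * y = (exp (t • ξ) (x • ((1, 0, 0) : E3) + (0, 0, 1))).1 - x₀ := by
      simp only [h, b]
      rw [e1, map_add, map_smul, Prod.fst_add, Prod.smul_fst, smul_eq_mul]
      ring
    rw [e2]
    refine (abs_sub _ _).trans ?_
    refine add_le_add_left ?_ _
    have e3 : |(exp (t • ξ) (x • ((1, 0, 0) : E3) + (0, 0, 1))).1| ≤
        ‖exp (t • ξ) (x • ((1, 0, 0) : E3) + (0, 0, 1))‖ := by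
      rw [← Real.norm_eq_abs]
      exact norm_fst_le _
    refine e3.trans ((ContinuousLinearMap.le_opNorm _ _).trans ?_)
    have e4 : ‖x • ((1, 0, 0) : E3) + (0, 0, 1)‖ ≤ |x| + 1 := by
      refine (norm_add_le _ _).trans ?_
      rw [norm_smul, Real.norm_eq_abs]
      simp [Prod.norm_def]
    calc ‖exp (t • ξ)‖ * ‖x • ((1, 0, 0) : E3) + (0, 0, 1)‖ ≤ M * (|x| + 1) := by
          gcongr
          exact hM t ht
      _ = M * |x| + M := by ring
  have hbig1 : κ * |y| ≤ |b t₀ * y| := by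
    rw [abs_mul]; gcongr; rw [hκ]; exact min_le_left _ _
  have hbig2 : κ * |y| ≤ |b (-t₀) * y| := by
    rw [abs_mul]; gcongr; rw [hκ]; exact min_le_right _ _
  -- opposite signs
  have hopp : h t₀ * h (-t₀) ≤ 0 := by
    have h1 : |h t₀ - b t₀ * y| < |b t₀ * y| := by
      have := hest t₀ hmem1; linarith
    have h2 : |h (-t₀) - b (-t₀) * y| < |b (-t₀) * y| := by
      have := hest (-t₀) hmem2; linarith
    have h3 : (b t₀ * y) * (b (-t₀) * y) ≤ 0 := by
      have h4 : b t₀ * b (-t₀) ≤ 0 := by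
        have h5 : (b t₀ * β) * (b (-t₀) * β) < 0 := mul_neg_of_pos_of_neg hs1 hs2
        have h6 : (b t₀ * β) * (b (-t₀) * β) = (b t₀ * b (-t₀)) * (β * β) := by ring
        rw [h6] at h5
        have h7 : 0 < β * β := mul_self_pos.2 hβ
        by_contra hcon
        push Not at hcon
        have := mul_pos hcon h7
        linarith
      have : (b t₀ * y) * (b (-t₀) * y) = (b t₀ * b (-t₀)) * (y * y) := by ring
      rw [this]
      exact mul_nonpos_of_nonpos_of_nonneg h4 (mul_self_nonneg y)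
    rcases le_total 0 (b t₀ * y) with h4 | h4
    · rw [abs_of_nonneg h4, abs_lt] at h1
      have h5 : b (-t₀) * y ≤ 0 := by
        by_contra hcon
        push Not at hcon
        rw [abs_of_pos hcon] at hbig2
        rw [abs_of_nonneg h4] at hbig1
        have : 0 < κ * |y| := by
          have : 0 ≤ M * |x| + M + |x₀| := by positivity
          linarith
        have := mul_pos (this.trans_le hbig1) hcon
        linarith
      rw [abs_of_nonpos h5, abs_lt] at h2
      exact mul_nonpos_of_nonneg_of_nonpos (by linarith) (by linarith)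
    · rw [abs_of_nonpos h4, abs_lt] at h1
      have h5 : 0 ≤ b (-t₀) * y := by
        by_contra hcon
        push Not at hcon
        rw [abs_of_nonpos h4] at hbig1
        have : 0 < κ * |y| := by
          have : 0 ≤ M * |x| + M + |x₀| := by positivity
          linarith
        have h6 : b t₀ * y < 0 := by linarith
        have := mul_pos_of_neg_of_neg h6 hcon
        linarith
      rw [abs_of_nonneg h5, abs_lt] at h2
      exact mul_nonpos_of_nonpos_of_nonneg (by linarith) (by linarith)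
  obtain ⟨t, ht, ht0⟩ : ∃ t ∈ Icc (-t₀) t₀, h t = 0 := by
    rcases le_total 0 (h t₀) with h1 | h1
    · rcases eq_or_lt_of_le h1 with h2 | h2
      · exact ⟨t₀, hmem1, h2.symm⟩
      · have h3 : h (-t₀) ≤ 0 := by
          by_contra hcon
          push Not at hcon
          have := mul_pos h2 hcon
          linarith
        exact intermediate_value_Icc (by linarith) hh.continuousOn ⟨h3, h1⟩
    · rcases eq_or_lt_of_le h1 with h2 | h2
      · exact ⟨t₀, hmem1, h2⟩
      · have h3 : 0 ≤ h (-t₀) := by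
          by_contra hcon
          push Not at hcon
          have := mul_pos_of_neg_of_neg h2 hcon
          linarith
        exact intermediate_value_Icc' (by linarith) hh.continuousOn ⟨h1, h3⟩
  have hv : ((x, y, 1) : E3) ∈ lift K := ⟨rfl, hxy⟩
  have hw := hflow t _ hv
  set w := exp (t • ξ) ((x, y, 1) : E3) with hwdef
  have hw1 : w.1 = x₀ := by
    have : w.1 - x₀ = 0 := ht0
    linarith
  have hw2 : |w.2.1| ≤ B := by
    have h1 := hw.2
    rw [hw1] at h1
    exact hx₀ _ h1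
  have hwn : ‖w‖ ≤ P := by
    have hw3 : w.2.2 = 1 := hw.1
    rw [hP, Prod.norm_def, Prod.norm_def, hw1, hw3, Real.norm_eq_abs, Real.norm_eq_abs, norm_one]
    exact max_le_max le_rfl (max_le_max (hw2.trans (le_abs_self B)) le_rfl)
  have hback : ((x, y, 1) : E3) = exp ((-t) • ξ) w := by
    rw [hwdef]
    change _ = (exp ((-t) • ξ) * exp (t • ξ)) ((x, y, 1) : E3)
    rw [exp_neg_mul_exp]
    rfl
  have hnorm : ‖((x, y, 1) : E3)‖ ≤ M * P := by
    rw [hback]
    refine (ContinuousLinearMap.le_opNorm _ _).trans ?_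
    gcongr
    exact hM (-t) ⟨by linarith [ht.2], by linarith [ht.1]⟩
  have hyn : |y| ≤ ‖((x, y, 1) : E3)‖ := by
    rw [← Real.norm_eq_abs]
    exact (norm_fst_le ((y, 1) : ℝ × ℝ)).trans (norm_snd_le ((x, y, 1) : E3))
  linarith

theorem eq_zero_of_mul_le {A C : ℝ} (h : ∀ r : ℝ, 0 ≤ r → |A| * r ≤ C) : A = 0 := by
  by_contra hA
  have hA' : 0 < |A| := abs_pos.2 hA
  have h0 := h 0 le_rfl
  rw [mul_zero] at h0
  have h1 := h ((C + 1) / |A|) (by positivity)
  rw [mul_div_cancel₀ _ hA'.ne'] at h1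
  linarith

/-- structure of closed sets with enough symmetries and a bounded fibre -/
theorem structure_bdd (hKc : IsClosed K)
    (hK : ∀ c : ℝ, 0 < c → ∃ p q t₁ t₂ σ, KPar K c p q t₁ t₂ σ)
    (hπ : ∀ x, ∃ y, (x, y) ∈ K) {x₀ B : ℝ} (hx₀ : ∀ y, (x₀, y) ∈ K → |y| ≤ B) :
    (∃ a b : ℝ, ∀ x y, (x, y) ∈ K → y = a + b * x) ∨
    (∃ a k B' : ℝ, k ≠ 0 ∧ (∀ x y, (x, y) ∈ K → |y - a| ≤ B' * Real.exp (k * x)) ∧
      ∀ x y, (x, y) ∈ K → ∀ h : ℝ, (x + h, a + (y - a) * Real.exp (k * h)) ∈ K) ∨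
    (∃ y₀ : ℝ, ∀ s : ℝ, 0 < s → ∀ x y, (x, y) ∈ K → (x, y₀ + s * (y - y₀)) ∈ K) := by
  have hunb : ∀ N : ℝ, ∃ x y, (x, y) ∈ K ∧ N < |x| := by
    intro N
    obtain ⟨y, hy⟩ := hπ (|N| + 1)
    refine ⟨_, y, hy, ?_⟩
    rw [abs_of_pos (by positivity)]
    have := le_abs_self N
    linarith
  obtain ⟨y₀, h₀⟩ := hπ x₀
  obtain ⟨A, e, b₁, b₂, c, σ, hc, hσ, hsum, hflow⟩ := exists_flow hKc hK
  have hσ0 : σ ≠ 0 := by rintro rfl; norm_num at hσ
  by_cases hA : A = 0
  · subst hA
    simp only [mul_zero, neg_zero, abs_zero, zero_add] at hflow hsum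
    have horb : ∀ x y, (x, y) ∈ K → ∀ t : ℝ, (x + b₁ * t,
        (exp (t • mat 0 0 b₁ 0 e b₂ 0) ((x, y, 1) : E3)).2.1) ∈ K := by
      intro x y hxy t
      have h1 := hflow t ((x, y, 1) : E3) ⟨rfl, hxy⟩
      have hz : ∀ t : ℝ, (exp (t • mat 0 0 b₁ 0 e b₂ 0) ((x, y, 1) : E3)).2.2 = 1 :=
        fun t => (hflow t ((x, y, 1) : E3) ⟨rfl, hxy⟩).1
      have hX : (exp (t • mat 0 0 b₁ 0 e b₂ 0) ((x, y, 1) : E3)).1 = x + b₁ * t := by
        have h2 : ∀ t, HasDerivAt (fun u : ℝ =>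
            (exp (u • mat 0 0 b₁ 0 e b₂ 0) ((x, y, 1) : E3)).1 - b₁ * u) 0 t := by
          intro t
          have h3 := (hasDerivAt_fst (hasDerivAt_flow (mat 0 0 b₁ 0 e b₂ 0) (x, y, 1) t)).sub
            ((hasDerivAt_id t).const_mul b₁)
          rw [mat_apply] at h3
          simp only [zero_mul, zero_add, hz, mul_one, sub_self] at h3
          exact h3
        have h4 := eq_of_deriv_zero h2 t 0
        rw [zero_smul, exp_zero, mul_zero, sub_zero] at h4
        have h5 : ((1 : E3 →L[ℝ] E3) (x, y, 1)).1 = x := rfl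
        rw [h5] at h4
        linarith
      rw [← hX]
      exact h1.2
    by_cases he : e = 0
    · subst he
      have hY : ∀ x y, (x, y) ∈ K → ∀ t : ℝ,
          (exp (t • mat 0 0 b₁ 0 0 b₂ 0) ((x, y, 1) : E3)).2.1 = y + b₂ * t := by
        intro x y hxy t
        have hz : ∀ t : ℝ, (exp (t • mat 0 0 b₁ 0 0 b₂ 0) ((x, y, 1) : E3)).2.2 = 1 :=
          fun t => (hflow t ((x, y, 1) : E3) ⟨rfl, hxy⟩).1
        have h2 : ∀ t, HasDerivAt (fun u : ℝ =>
            (exp (u • mat 0 0 b₁ 0 0 b₂ 0) ((x, y, 1) : E3)).2.1 - b₂ * u) 0 t := by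
          intro t
          have h3 := (hasDerivAt_snd (hasDerivAt_flow (mat 0 0 b₁ 0 0 b₂ 0) (x, y, 1) t)).sub
            ((hasDerivAt_id t).const_mul b₂)
          rw [mat_apply] at h3
          simp only [zero_mul, zero_add, hz, mul_one, sub_self] at h3
          exact h3
        have h4 := eq_of_deriv_zero h2 t 0
        rw [zero_smul, exp_zero, mul_zero, sub_zero] at h4
        have h5 : ((1 : E3 →L[ℝ] E3) (x, y, 1)).2.1 = y := rfl
        rw [h5] at h4
        linarith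
      by_cases hb₁ : b₁ = 0
      · exfalso
        subst hb₁
        have h3 : b₂ = 0 := by
          refine eq_zero_of_mul_le (C := B + |y₀|) fun r hr => ?_
          have h1 := horb x₀ y₀ h₀ r
          rw [hY x₀ y₀ h₀, zero_mul, add_zero] at h1
          have h2 := hx₀ _ h1
          have h4 : |b₂| * r = |(y₀ + b₂ * r) - y₀| := by
            rw [add_sub_cancel_left, abs_mul, abs_of_nonneg hr]
          rw [h4]
          have := abs_sub (y₀ + b₂ * r) y₀
          linarith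
        rw [h3] at hsum
        norm_num at hsum
      · left
        have hg : ∀ x y, (x, y) ∈ K → |y| ≤ |b₂ / b₁| * |x| + (|B| + |b₂ / b₁ * x₀|) := by
          intro x y hxy
          have h1 := horb x y hxy ((x₀ - x) / b₁)
          rw [hY x y hxy, mul_div_cancel₀ _ hb₁, add_sub_cancel] at h1
          have h2 := (hx₀ _ h1).trans (le_abs_self B)
          have h3 : y = (y + b₂ * ((x₀ - x) / b₁)) - b₂ / b₁ * x₀ + b₂ / b₁ * x := by ring
          rw [← abs_mul]
          have h4 : |y| ≤ |(y + b₂ * ((x₀ - x) / b₁)) - b₂ / b₁ * x₀| + |b₂ / b₁ * x| := by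
            conv_lhs => rw [h3]
            exact abs_add_le _ _
          have h5 := abs_sub (y + b₂ * ((x₀ - x) / b₁)) (b₂ / b₁ * x₀)
          linarith
        exact line_of_growth hunb (abs_nonneg _) (by positivity) hg hK
    · right
      have hY : ∀ x y, (x, y) ∈ K → ∀ t : ℝ,
          (exp (t • mat 0 0 b₁ 0 e b₂ 0) ((x, y, 1) : E3)).2.1 =
            -(b₂ / e) + (y - -(b₂ / e)) * Real.exp (e * t) := by
        intro x y hxy t
        have hz : ∀ t : ℝ, (exp (t • mat 0 0 b₁ 0 e b₂ 0) ((x, y, 1) : E3)).2.2 = 1 :=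
          fun t => (hflow t ((x, y, 1) : E3) ⟨rfl, hxy⟩).1
        have h2 : ∀ t, HasDerivAt (fun u : ℝ =>
            ((exp (u • mat 0 0 b₁ 0 e b₂ 0) ((x, y, 1) : E3)).2.1 + b₂ / e) *
              Real.exp (-e * u)) 0 t := by
          intro t
          have h3 := hasDerivAt_snd (hasDerivAt_flow (mat 0 0 b₁ 0 e b₂ 0) (x, y, 1) t)
          have h4 : HasDerivAt (fun u : ℝ => Real.exp (-e * u)) (Real.exp (-e * t) * (-e)) t := by
            have := ((hasDerivAt_id t).const_mul (-e)).exp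
            simpa using this
          have h5 := (h3.add_const (b₂ / e)).mul h4
          rw [mat_apply] at h5
          simp only [zero_mul, zero_add, hz, mul_one] at h5
          have h6 : (e * (exp (t • mat 0 0 b₁ 0 e b₂ 0) ((x, y, 1) : E3)).2.1 + b₂) *
              Real.exp (-e * t) + ((exp (t • mat 0 0 b₁ 0 e b₂ 0) ((x, y, 1) : E3)).2.1 + b₂ / e) *
                (Real.exp (-e * t) * (-e)) = 0 := by
            field_simp
            ring
          rw [h6] at h5
          exact h5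
        have h4 := eq_of_deriv_zero h2 t 0
        rw [zero_smul, exp_zero, mul_zero, Real.exp_zero, mul_one] at h4
        have h5 : ((1 : E3 →L[ℝ] E3) (x, y, 1)).2.1 = y := rfl
        rw [h5] at h4
        have h6 : Real.exp (-e * t) * Real.exp (e * t) = 1 := by
          rw [← Real.exp_add, show -e * t + e * t = 0 by ring, Real.exp_zero]
        rw [sub_neg_eq_add]
        calc (exp (t • mat 0 0 b₁ 0 e b₂ 0) ((x, y, 1) : E3)).2.1
            = -(b₂ / e) + (((exp (t • mat 0 0 b₁ 0 e b₂ 0) ((x, y, 1) : E3)).2.1 + b₂ / e) *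
                Real.exp (-e * t)) * Real.exp (e * t) := by
              rw [mul_assoc, h6]; ring
          _ = _ := by rw [h4]
      obtain ⟨a, ha⟩ : ∃ a : ℝ, a = -(b₂ / e) := ⟨_, rfl⟩
      rw [← ha] at hY
      by_cases hb₁ : b₁ = 0
      · right
        subst hb₁
        refine ⟨a, fun s hs x y hxy => ?_⟩
        have h5 := horb x y hxy (Real.log s / e)
        rw [hY x y hxy, zero_mul, add_zero, mul_div_cancel₀ _ he, Real.exp_log hs] at h5
        rwa [mul_comm s]
      · left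
        have hfl : ∀ x y, (x, y) ∈ K → ∀ h : ℝ, (x + h, a + (y - a) * Real.exp (e / b₁ * h)) ∈ K := by
          intro x y hxy h
          have h1 := horb x y hxy (h / b₁)
          rw [hY x y hxy, mul_div_cancel₀ _ hb₁] at h1
          have h2 : e * (h / b₁) = e / b₁ * h := by ring
          rwa [h2] at h1
        refine ⟨a, e / b₁, (|B| + |a|) * Real.exp (-(e / b₁ * x₀)), div_ne_zero he hb₁, ?_, hfl⟩
        intro x y hxy
        have h1 := hfl x y hxy (x₀ - x)
        rw [add_sub_cancel] at h1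
        have h2 := (hx₀ _ h1).trans (le_abs_self B)
        have h3 : |(y - a) * Real.exp (e / b₁ * (x₀ - x))| ≤ |B| + |a| := by
          have h4 : (y - a) * Real.exp (e / b₁ * (x₀ - x)) =
              (a + (y - a) * Real.exp (e / b₁ * (x₀ - x))) - a := by ring
          rw [h4]
          have := abs_sub (a + (y - a) * Real.exp (e / b₁ * (x₀ - x))) a
          linarith
        rw [abs_mul, abs_of_pos (Real.exp_pos _)] at h3
        have h4 : Real.exp (e / b₁ * (x₀ - x)) *
            (Real.exp (-(e / b₁ * x₀)) * Real.exp (e / b₁ * x)) = 1 := by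
          rw [← Real.exp_add, ← Real.exp_add]
          rw [show e / b₁ * (x₀ - x) + (-(e / b₁ * x₀) + e / b₁ * x) = 0 by ring,
            Real.exp_zero]
        calc |y - a| = |y - a| * Real.exp (e / b₁ * (x₀ - x)) *
              (Real.exp (-(e / b₁ * x₀)) * Real.exp (e / b₁ * x)) := by
              rw [mul_assoc, h4, mul_one]
          _ ≤ (|B| + |a|) * (Real.exp (-(e / b₁ * x₀)) * Real.exp (e / b₁ * x)) := by gcongr
          _ = _ := by ring
  · left
    have hβ : -(σ * c * A) ≠ 0 := neg_ne_zero.2 (mul_ne_zero (mul_ne_zero hσ0 hc.ne') hA)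
    obtain ⟨S, R, hS, hR, hg⟩ := growth_of_flow hx₀ hβ (by rw [mat_apply]; simp) hflow
    exact line_of_growth hunb hS hR hg hK

end Pool.Agent.Lib.MP_1755e3_an
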