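import Pool.Agent.Lib.MP_1755e3_an.Coords
import Pool.Agent.Lib.MP_1755e3_an.Structure

set_option autoImplicit false

open Set Metric Filter Topology

namespace Pool.Agent.Lib.MP_1755e3_an

/-- closure of the graph -/
def GK (f : ℝ → ℝ) : Set (ℝ × ℝ) := closure (range fun x => (x, f x))

theorem mem_GK (f : ℝ → ℝ) (x : ℝ) : (x, f x) ∈ GK f := subset_closure (mem_range_self x)

theorem isClosed_GK (f : ℝ → ℝ) : IsClosed (GK f) := isClosed_closure

theorem kpar_of_par {f : ℝ → ℝ} {c p q t₁ t₂ σ : ℝ} (hc : 0 < c) (h : Par f c p q t₁ t₂ σ) :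
    KPar (GK f) c p q t₁ t₂ σ := by
  obtain ⟨hpq, hσ, hfwd, hsurj⟩ := h
  have hc' : c * c⁻¹ = 1 := mul_inv_cancel₀ hc.ne'
  refine ⟨hpq, hσ, fun x y hxy => ?_, fun X Y hXY => ?_⟩
  · let T : ℝ × ℝ → ℝ × ℝ := fun w =>
      (t₁ + p * w.1 - σ * q * (c * w.2), t₂ + q * w.1 + σ * p * (c * w.2))
    have hT : Continuous T := by fun_prop
    have hm : MapsTo T (range fun x => (x, f x)) (range fun x => (x, f x)) := by
      rintro _ ⟨x, rfl⟩
      exact ⟨t₁ + p * x - σ * q * (c * f x), Prod.ext rfl (hfwd x)⟩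
    exact (hm.closure hT) hxy
  · let S : ℝ × ℝ → ℝ × ℝ := fun w =>
      (p * (w.1 - t₁) + q * (w.2 - t₂), σ * c⁻¹ * (p * (w.2 - t₂) - q * (w.1 - t₁)))
    have hS : Continuous S := by fun_prop
    have hm : MapsTo S (range fun x => (x, f x)) (range fun x => (x, f x)) := by
      rintro _ ⟨x', rfl⟩
      obtain ⟨x, hx⟩ := hsurj x'
      have hy := hfwd x
      rw [← hx] at hy
      refine ⟨x, Prod.ext ?_ ?_⟩
      · change x = p * (x' - t₁) + q * (f x' - t₂)
        rw [hy, hx]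
        calc x = (p ^ 2 + q ^ 2) * x := by rw [hpq, one_mul]
          _ = _ := by ring
      · change f x = σ * c⁻¹ * (p * (f x' - t₂) - q * (x' - t₁))
        rw [hy, hx]
        calc f x = (p ^ 2 + q ^ 2) * σ ^ 2 * (c * c⁻¹) * f x := by rw [hpq, hσ, hc']; ring
          _ = _ := by ring
    refine ⟨_, _, (hm.closure hS) hXY, ?_, ?_⟩
    · calc X = t₁ + (p ^ 2 + q ^ 2 * σ ^ 2 * (c * c⁻¹)) * (X - t₁) +
            (p * q - p * q * σ ^ 2 * (c * c⁻¹)) * (Y - t₂) := by
            rw [hσ, hc', mul_one, mul_one, mul_one, mul_one, hpq]; ring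
        _ = _ := by ring
    · calc Y = t₂ + (q ^ 2 + p ^ 2 * σ ^ 2 * (c * c⁻¹)) * (Y - t₂) +
            (p * q - p * q * σ ^ 2 * (c * c⁻¹)) * (X - t₁) := by
            rw [hσ, hc', mul_one, mul_one, mul_one, mul_one, add_comm (q ^ 2), hpq]; ring
        _ = _ := by ring

/-- comparison of a linear term with a negligible one -/
theorem eq_zero_of_abs_le_exp {A C : ℝ} (h : ∀ r : ℝ, 0 ≤ r → |A| ≤ C * Real.exp (-r)) : A = 0 := by
  refine eq_zero_of_mul_le (C := C) fun r hr => ?_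
  have h1 := h r hr
  have h2 : Real.exp (-r) * Real.exp r = 1 := by
    rw [← Real.exp_add, neg_add_cancel, Real.exp_zero]
  have h3 : r ≤ Real.exp r := by linarith [Real.add_one_le_exp r]
  calc |A| * r ≤ |A| * Real.exp r := by gcongr
    _ ≤ C * Real.exp (-r) * Real.exp r := by gcongr
    _ = C := by rw [mul_assoc, h2, mul_one]

theorem not_exp_le_affine {m d A C : ℝ} (hm : 0 < m) (hd : 0 < d) (hA : 0 ≤ A) (hC : 0 ≤ C)
    (h : ∀ r : ℝ, 0 ≤ r → m * Real.exp (d * r) ≤ A * r + C) : False := by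
  obtain ⟨m', hm'⟩ : ∃ m' : ℝ, m' = m * d ^ 2 / 2 := ⟨_, rfl⟩
  have hm0 : 0 < m' := by rw [hm']; positivity
  obtain ⟨r, hr⟩ : ∃ r : ℝ, r = (A + C + 1) / m' + 1 := ⟨_, rfl⟩
  have hr1 : 1 ≤ r := by
    have : 0 ≤ (A + C + 1) / m' := by positivity
    linarith
  have h1 := h r (by linarith)
  have h2 : (d * r) ^ 2 / 2 ≤ Real.exp (d * r) := by
    have := Real.quadratic_le_exp_of_nonneg (x := d * r) (by positivity)
    have h3 : 0 ≤ d * r := by positivity
    linarith
  have h3 : m' * r ^ 2 ≤ A * r + C := by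
    calc m' * r ^ 2 = m * ((d * r) ^ 2 / 2) := by rw [hm']; ring
      _ ≤ m * Real.exp (d * r) := by gcongr
      _ ≤ _ := h1
  have h4 : m' * r = A + C + 1 + m' := by rw [hr]; field_simp
  have h5 : m' * r ^ 2 = (A + C + 1 + m') * r := by rw [← h4]; ring
  nlinarith

variable {K : Set (ℝ × ℝ)}

/-- the affine symmetries of a set of exponential type are trivial -/
theorem exp_par {a k B β : ℝ} (hk : k ≠ 0)
    (hb : ∀ x y, (x, y) ∈ K → |y - a| ≤ B * Real.exp (k * x)) (hβ : β ≠ 0)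
    (hβK : ∀ x, (x, a + β * Real.exp (k * x)) ∈ K)
    (hlow : (∀ x, (x, a) ∈ K) ∨ ∃ m : ℝ, 0 < m ∧ ∀ x y, (x, y) ∈ K →
      m * Real.exp (k * x) ≤ |y - a|)
    {c p q t₁ t₂ σ : ℝ} (hc : 0 < c) (hK : KPar K c p q t₁ t₂ σ) :
    p = 1 ∧ q = 0 ∧ t₂ + σ * c * a = a := by
  obtain ⟨hpq, hσ, hfwd, -⟩ := hK
  obtain ⟨hp, hq⟩ := abs_le_one_of_sq hpq
  have hσ1 := abs_eq_one_of_sq hσ
  have hB : 0 ≤ B := by
    have h1 := hb _ _ (hβK 0)
    rw [mul_zero, Real.exp_zero, mul_one, mul_one] at h1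
    exact (abs_nonneg _).trans h1
  have hkd : ∀ r : ℝ, k * (r / k) = r := fun r => mul_div_cancel₀ _ hk
  -- negligible terms
  obtain ⟨M, hM⟩ : ∃ M : ℝ, M = |k| * (|t₁| + c * (|a| + |β|)) := ⟨_, rfl⟩
  obtain ⟨L, hL⟩ : ∃ L : ℝ, L = |t₂| + |a| + c * (|a| + |β|) := ⟨_, rfl⟩
  have hM0 : 0 ≤ M := by rw [hM]; positivity
  have hL0 : 0 ≤ L := by rw [hL]; positivity
  have hX : ∀ y : ℝ, |y| ≤ |a| + |β| → |k * (t₁ - σ * q * (c * y))| ≤ M := by
    intro y hy
    rw [abs_mul, hM]
    gcongr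
    refine (abs_sub _ _).trans ?_
    gcongr
    rw [abs_mul, abs_mul, abs_mul, hσ1, one_mul, abs_of_pos hc]
    calc |q| * (c * |y|) ≤ 1 * (c * |y|) := by gcongr
      _ ≤ c * (|a| + |β|) := by rw [one_mul]; gcongr
  have hY : ∀ y : ℝ, |y| ≤ |a| + |β| → |t₂ + σ * p * (c * y) - a| ≤ L := by
    intro y hy
    rw [hL]
    refine (abs_sub _ _).trans ?_
    have h1 : |σ * p * (c * y)| ≤ c * (|a| + |β|) := by
      rw [abs_mul, abs_mul, abs_mul, hσ1, one_mul, abs_of_pos hc]
      calc |p| * (c * |y|) ≤ 1 * (c * |y|) := by gcongr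
        _ ≤ c * (|a| + |β|) := by rw [one_mul]; gcongr
    have := abs_add_le t₂ (σ * p * (c * y))
    linarith
  have hyb : ∀ r : ℝ, 0 ≤ r → |a + β * Real.exp (-r)| ≤ |a| + |β| := by
    intro r hr
    refine (abs_add_le _ _).trans ?_
    rw [abs_mul, abs_of_pos (Real.exp_pos _)]
    have : Real.exp (-r) ≤ 1 := Real.exp_le_one_iff.2 (by linarith)
    have := mul_le_of_le_one_right (abs_nonneg β) this
    linarith
  have hleft : ∀ r : ℝ, ((-r) / k, a + β * Real.exp (-r)) ∈ K := by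
    intro r
    have := hβK ((-r) / k)
    rwa [hkd] at this
  have hright : ∀ r : ℝ, (r / k, a + β * Real.exp r) ∈ K := by
    intro r
    have := hβK (r / k)
    rwa [hkd] at this
  have hmexp : ∀ {u v : ℝ}, u ≤ v → B * Real.exp u ≤ B * Real.exp v := fun h => by gcongr
  -- `p` is nonnegative
  have hp0 : 0 ≤ p := by
    by_contra hcon
    push Not at hcon
    rcases hlow with hline | ⟨m, hm, hlow⟩
    · have hq0 : q = 0 := by
        have h0 : q / k = 0 := by
          refine eq_zero_of_mul_le (C := B * Real.exp M + L) fun r hr => ?_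
          have h1 := hb _ _ (hfwd _ _ (hline (r / k)))
          have h2 : k * (t₁ + p * (r / k) - σ * q * (c * a)) ≤ M := by
            have h3 := (le_abs_self _).trans (hX a (by linarith [abs_nonneg β]))
            have h4 : k * (t₁ + p * (r / k) - σ * q * (c * a)) =
                k * (t₁ - σ * q * (c * a)) + p * (k * (r / k)) := by ring
            rw [h4, hkd]
            have := mul_nonneg_of_nonpos_of_nonpos hcon.le (neg_nonpos.2 hr)
            linarith
          have h3 := h1.trans (hmexp h2)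
          have h4 := hY a (by linarith [abs_nonneg β])
          have h5 : |q / k| * r = |(t₂ + q * (r / k) + σ * p * (c * a) - a) -
              (t₂ + σ * p * (c * a) - a)| := by
            rw [show (t₂ + q * (r / k) + σ * p * (c * a) - a) - (t₂ + σ * p * (c * a) - a) =
              q / k * r by ring, abs_mul, abs_of_nonneg hr]
          rw [h5]
          refine (abs_sub _ _).trans ?_
          linarith
        rcases div_eq_zero_iff.1 h0 with h | h
        · exact h
        · exact absurd h hk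
      have hp1 : p = -1 := by
        rw [hq0] at hpq
        nlinarith
      subst hq0 hp1
      have h0 : c * β = 0 := by
        refine eq_zero_of_mul_le (C := B * Real.exp M + L) fun r hr => ?_
        have h1 := hb _ _ (hfwd _ _ (hright r))
        have h2 : k * (t₁ + -1 * (r / k) - σ * 0 * (c * (a + β * Real.exp r))) ≤ M := by
          have h3 := (le_abs_self _).trans (hX a (by linarith [abs_nonneg β]))
          have h4 : k * (t₁ + -1 * (r / k) - σ * 0 * (c * (a + β * Real.exp r))) =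
              k * (t₁ - σ * 0 * (c * a)) - k * (r / k) := by ring
          rw [h4, hkd]
          linarith
        have h3 := h1.trans (hmexp h2)
        have h4 := hY a (by linarith [abs_nonneg β])
        have h5 : |c * β| * Real.exp r = |(t₂ + 0 * (r / k) + σ * -1 * (c * (a + β * Real.exp r)) - a)
            - (t₂ + σ * -1 * (c * a) - a)| := by
          rw [show (t₂ + 0 * (r / k) + σ * -1 * (c * (a + β * Real.exp r)) - a)
            - (t₂ + σ * -1 * (c * a) - a) = -(σ * (c * β * Real.exp r)) by ring, abs_neg, abs_mul σ,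
            hσ1, one_mul, abs_mul (c * β), abs_of_pos (Real.exp_pos r)]
        have h6 : |c * β| * r ≤ |c * β| * Real.exp r := by
          gcongr
          linarith [Real.add_one_le_exp r]
        refine h6.trans ?_
        rw [h5]
        refine (abs_sub _ _).trans ?_
        linarith
      exact mul_ne_zero hc.ne' hβ h0
    · refine not_exp_le_affine (m := m * Real.exp (-M)) (d := -p) (A := |q / k|) (C := L)
        (by positivity) (by linarith) (abs_nonneg _) hL0 fun r hr => ?_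
      have h1 := hlow _ _ (hfwd _ _ (hleft r))
      have h2 : -M + -p * r ≤ k * (t₁ + p * ((-r) / k) - σ * q * (c * (a + β * Real.exp (-r)))) := by
        have h3 := neg_le_of_abs_le (hX _ (hyb r hr))
        have h4 : k * (t₁ + p * ((-r) / k) - σ * q * (c * (a + β * Real.exp (-r)))) =
            k * (t₁ - σ * q * (c * (a + β * Real.exp (-r)))) + p * (k * ((-r) / k)) := by ring
        rw [h4, hkd]
        linarith
      have h5 : |t₂ + q * ((-r) / k) + σ * p * (c * (a + β * Real.exp (-r))) - a| ≤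
          |q / k| * r + L := by
        have h6 : t₂ + q * ((-r) / k) + σ * p * (c * (a + β * Real.exp (-r))) - a =
            -(q / k * r) + (t₂ + σ * p * (c * (a + β * Real.exp (-r))) - a) := by ring
        rw [h6]
        refine (abs_add_le _ _).trans ?_
        rw [abs_neg, abs_mul, abs_of_nonneg hr]
        have := hY _ (hyb r hr)
        linarith
      calc m * Real.exp (-M) * Real.exp (-p * r) = m * Real.exp (-M + -p * r) := by
            rw [Real.exp_add]; ring
        _ ≤ m * Real.exp (k * (t₁ + p * ((-r) / k) - σ * q * (c * (a + β * Real.exp (-r))))) := by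
            gcongr
        _ ≤ _ := h1
        _ ≤ _ := h5
  have hq0 : q = 0 := by
    have h0 : q / k = 0 := by
      refine eq_zero_of_mul_le (C := B * Real.exp M + L) fun r hr => ?_
      have h1 := hb _ _ (hfwd _ _ (hleft r))
      have h2 : k * (t₁ + p * ((-r) / k) - σ * q * (c * (a + β * Real.exp (-r)))) ≤ M := by
        have h3 := (le_abs_self _).trans (hX _ (hyb r hr))
        have h4 : k * (t₁ + p * ((-r) / k) - σ * q * (c * (a + β * Real.exp (-r)))) =
            k * (t₁ - σ * q * (c * (a + β * Real.exp (-r)))) + p * (k * ((-r) / k)) := by ring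
        rw [h4, hkd]
        have := mul_nonneg hp0 hr
        linarith
      have h3 := h1.trans (hmexp h2)
      have h4 := hY _ (hyb r hr)
      have h5 : |q / k| * r = |(t₂ + q * ((-r) / k) + σ * p * (c * (a + β * Real.exp (-r))) - a) -
          (t₂ + σ * p * (c * (a + β * Real.exp (-r))) - a)| := by
        rw [show (t₂ + q * ((-r) / k) + σ * p * (c * (a + β * Real.exp (-r))) - a) -
          (t₂ + σ * p * (c * (a + β * Real.exp (-r))) - a) = -(q / k * r) by ring, abs_neg,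
          abs_mul, abs_of_nonneg hr]
      rw [h5]
      refine (abs_sub _ _).trans ?_
      linarith
    rcases div_eq_zero_iff.1 h0 with h | h
    · exact h
    · exact absurd h hk
  have hp1 : p = 1 := by
    rw [hq0] at hpq
    nlinarith
  refine ⟨hp1, hq0, ?_⟩
  subst hq0 hp1
  have h0 : t₂ + σ * c * a - a = 0 := by
    refine eq_zero_of_abs_le_exp (C := B * Real.exp (k * t₁) + c * |β|) fun r hr => ?_
    have h1 := hb _ _ (hfwd _ _ (hleft r))
    have h2 : k * (t₁ + 1 * ((-r) / k) - σ * 0 * (c * (a + β * Real.exp (-r)))) = k * t₁ + -r := by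
      have : k * (t₁ + 1 * ((-r) / k) - σ * 0 * (c * (a + β * Real.exp (-r)))) =
        k * t₁ + k * ((-r) / k) := by ring
      rw [this, hkd]
    rw [h2, Real.exp_add] at h1
    have h3 : t₂ + σ * c * a - a = (t₂ + 0 * ((-r) / k) + σ * 1 * (c * (a + β * Real.exp (-r))) - a)
        - σ * (c * β * Real.exp (-r)) := by ring
    rw [h3]
    refine (abs_sub _ _).trans ?_
    have h4 : |σ * (c * β * Real.exp (-r))| = c * |β| * Real.exp (-r) := by
      rw [abs_mul, hσ1, one_mul, abs_mul, abs_mul, abs_of_pos hc, abs_of_pos (Real.exp_pos _)]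
    rw [h4]
    linarith
  linarith

/-- the exponential case -/
theorem exp_case {f : ℝ → ℝ} (hf : VerticallyRigid f) {a k B : ℝ} (hk : k ≠ 0)
    (hb : ∀ x y, (x, y) ∈ GK f → |y - a| ≤ B * Real.exp (k * x))
    (hfl : ∀ x y, (x, y) ∈ GK f → ∀ h : ℝ, (x + h, a + (y - a) * Real.exp (k * h)) ∈ GK f) :
    ∃ b : ℝ, ∀ x, f x = a + b * Real.exp (k * x) := by
  by_cases hall : ∀ x, f x = a
  · exact ⟨0, fun x => by rw [hall x]; ring⟩
  push Not at hall
  obtain ⟨x₁, hx₁⟩ := hall
  have hee : ∀ x : ℝ, Real.exp (-(k * x)) * Real.exp (k * x) = 1 := fun x => by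
    rw [← Real.exp_add, neg_add_cancel, Real.exp_zero]
  have hβK : ∀ x, (x, a + (f x₁ - a) * Real.exp (-(k * x₁)) * Real.exp (k * x)) ∈ GK f := by
    intro x
    have h1 := hfl x₁ (f x₁) (mem_GK f x₁) (x - x₁)
    rw [add_sub_cancel] at h1
    have h2 : (f x₁ - a) * Real.exp (-(k * x₁)) * Real.exp (k * x) =
        (f x₁ - a) * Real.exp (k * (x - x₁)) := by
      rw [mul_assoc, ← Real.exp_add]
      congr 2
      ring
    rwa [h2]
  have hβ : (f x₁ - a) * Real.exp (-(k * x₁)) ≠ 0 :=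
    mul_ne_zero (sub_ne_zero.2 hx₁) (Real.exp_pos _).ne'
  have hlow : (∀ x, (x, a) ∈ GK f) ∨ ∃ m : ℝ, 0 < m ∧ ∀ x y, (x, y) ∈ GK f →
      m * Real.exp (k * x) ≤ |y - a| := by
    by_cases h0 : ((0 : ℝ), a) ∈ GK f
    · left
      intro x
      have := hfl 0 a h0 x
      rwa [zero_add, sub_self, zero_mul, add_zero] at this
    · right
      have h1 : (GK f)ᶜ ∈ 𝓝 ((0 : ℝ), a) := (isClosed_GK f).isOpen_compl.mem_nhds h0
      obtain ⟨m, hm, hball⟩ := Metric.mem_nhds_iff.1 h1
      refine ⟨m, hm, fun x y hxy => ?_⟩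
      by_contra hcon
      push Not at hcon
      have h2 := hfl x y hxy (-x)
      rw [add_neg_cancel] at h2
      have h3 : ((0 : ℝ), a + (y - a) * Real.exp (k * -x)) ∈ ball ((0 : ℝ), a) m := by
        rw [mem_ball, Prod.dist_eq, dist_self, Real.dist_eq, add_sub_cancel_left, abs_mul,
          abs_of_pos (Real.exp_pos _)]
        refine max_lt hm ?_
        have h4 : |y - a| * Real.exp (k * -x) < m * Real.exp (k * x) * Real.exp (k * -x) :=
          mul_lt_mul_of_pos_right hcon (Real.exp_pos _)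
        rwa [mul_assoc, ← Real.exp_add, show k * x + k * -x = 0 by ring, Real.exp_zero,
          mul_one] at h4
      exact hball h3 h2
  have hsym : ∀ c : ℝ, 0 < c → ∃ t₁ σ : ℝ, σ ^ 2 = 1 ∧ ∀ x, f (t₁ + x) - a = σ * c * (f x - a) := by
    intro c hc
    obtain ⟨p, q, t₁, t₂, σ, hpar⟩ := exists_par hf hc
    obtain ⟨hp, hq, ht⟩ := exp_par hk hb hβ hβK hlow hc (kpar_of_par hc hpar)
    refine ⟨t₁, σ, hpar.2.1, fun x => ?_⟩
    have h1 := hpar.2.2.1 x
    rw [hp, hq] at h1
    have h2 : t₁ + 1 * x - σ * 0 * (c * f x) = t₁ + x := by ring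
    rw [h2] at h1
    rw [h1]
    calc t₂ + 0 * x + σ * 1 * (c * f x) - a = t₂ + σ * c * f x - (t₂ + σ * c * a) := by
          rw [ht]; ring
      _ = _ := by ring
  obtain ⟨g, hg⟩ : ∃ g : ℝ → ℝ, g = fun x => (f x - a) * Real.exp (-(k * x)) := ⟨_, rfl⟩
  have hgf : ∀ x, f x = a + g x * Real.exp (k * x) := by
    intro x
    rw [hg]
    change f x = a + (f x - a) * Real.exp (-(k * x)) * Real.exp (k * x)
    rw [mul_assoc, hee]
    ring
  have hgB : ∀ x, |g x| ≤ B := by
    intro x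
    rw [hg]
    change |(f x - a) * Real.exp (-(k * x))| ≤ B
    rw [abs_mul, abs_of_pos (Real.exp_pos _)]
    have h1 := hb _ _ (mem_GK f x)
    calc |f x - a| * Real.exp (-(k * x)) ≤ B * Real.exp (k * x) * Real.exp (-(k * x)) := by gcongr
      _ = B * (Real.exp (-(k * x)) * Real.exp (k * x)) := by ring
      _ = B := by rw [hee, mul_one]
  have hgtrans : ∀ τ : ℝ, ∃ σ : ℝ, σ ^ 2 = 1 ∧ ∀ x, g (τ + x) = σ * g x := by
    intro τ
    obtain ⟨t₁, σ, hσ, h1⟩ := hsym (Real.exp (k * τ)) (Real.exp_pos _)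
    have hg1 : ∀ x, g (t₁ + x) = σ * (Real.exp (k * τ) * Real.exp (-(k * t₁))) * g x := by
      intro x
      rw [hg]
      change (f (t₁ + x) - a) * Real.exp (-(k * (t₁ + x))) =
        σ * (Real.exp (k * τ) * Real.exp (-(k * t₁))) * ((f x - a) * Real.exp (-(k * x)))
      rw [h1, show -(k * (t₁ + x)) = -(k * t₁) + -(k * x) by ring, Real.exp_add]
      ring
    obtain ⟨ρ, hρ⟩ : ∃ ρ : ℝ, ρ = Real.exp (k * τ) * Real.exp (-(k * t₁)) := ⟨_, rfl⟩
    rw [← hρ] at hg1
    have hρ0 : 0 < ρ := by rw [hρ]; positivity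
    have hσ1 := abs_eq_one_of_sq hσ
    have hg2 : ∀ x, |g (t₁ + x)| = ρ * |g x| := by
      intro x
      rw [hg1, abs_mul, abs_mul, hσ1, one_mul, abs_of_pos hρ0]
    have hbdd : BddAbove (range fun x => |g x|) := ⟨B, by rintro _ ⟨x, rfl⟩; exact hgB x⟩
    obtain ⟨S, hS⟩ : ∃ S : ℝ, S = ⨆ x, |g x| := ⟨_, rfl⟩
    have hle : ∀ x, |g x| ≤ S := fun x => by rw [hS]; exact le_ciSup hbdd x
    have hS0 : 0 < S := by
      refine lt_of_lt_of_le ?_ (hle x₁)
      rw [hg]
      exact abs_pos.2 hβ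
    have hρ1 : ρ ≤ 1 := by
      have h2 : S ≤ S / ρ := by
        conv_lhs => rw [hS]
        refine ciSup_le fun x => ?_
        rw [le_div_iff₀ hρ0, mul_comm, ← hg2]
        exact hle _
      rw [le_div_iff₀ hρ0] at h2
      exact le_of_mul_le_mul_left (by rwa [mul_one]) hS0
    have hρ2 : 1 ≤ ρ := by
      have h2 : S ≤ ρ * S := by
        conv_lhs => rw [hS]
        refine ciSup_le fun x => ?_
        have h3 := hg2 (x - t₁)
        rw [add_sub_cancel] at h3
        rw [h3]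
        gcongr
        exact hle _
      exact le_of_mul_le_mul_right (by rwa [one_mul]) hS0
    have hρ3 : ρ = 1 := le_antisymm hρ1 hρ2
    have hτ : τ = t₁ := by
      rw [hρ, ← Real.exp_add, Real.exp_eq_one_iff] at hρ3
      have h4 : k * (τ - t₁) = 0 := by linarith
      rcases mul_eq_zero.1 h4 with h5 | h5
      · exact absurd h5 hk
      · linarith
    refine ⟨σ, hσ, fun x => ?_⟩
    rw [hτ, hg1, hρ3, mul_one]
  refine ⟨g 0, fun x => ?_⟩
  rw [hgf x]
  obtain ⟨σ, hσ, h1⟩ := hgtrans (x / 2)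
  have h2 := h1 0
  have h3 := h1 (x / 2)
  rw [add_zero] at h2
  rw [h2, add_halves, ← mul_assoc, ← sq, hσ, one_mul] at h3
  rw [h3]

/-- the case of a set invariant under vertical scaling -/
theorem scaling_case {f : ℝ → ℝ} (hf : VerticallyRigid f) {y₀ x₁ x₂ : ℝ} (hx : x₁ < x₂)
    (hconst : ∀ x y, x ∈ Ioo x₁ x₂ → (x, y) ∈ GK f → y = y₀) (hline : ∀ x, (x, y₀) ∈ GK f) :
    ∀ x, f x = y₀ := by
  obtain ⟨m₁, hm₁⟩ := exists_between hx
  obtain ⟨m₂, hm₂⟩ := exists_between hm₁.2
  have hI₁ : m₁ ∈ Ioo x₁ x₂ := hm₁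
  have hI₂ : m₂ ∈ Ioo x₁ x₂ := ⟨hm₁.1.trans hm₂.1, hm₂.2⟩
  have hne : m₂ - m₁ ≠ 0 := by linarith [hm₂.1]
  have hfI : ∀ x ∈ Ioo x₁ x₂, f x = y₀ := fun x hx => hconst x _ hx (mem_GK f x)
  have h1 : ∀ c : ℝ, 0 < c → ∃ ε τ : ℝ, ε ^ 2 = 1 ∧ ∀ x, |f (τ + ε * x) - y₀| = c * |f x - y₀| := by
    intro c hc
    obtain ⟨p, q, t₁, t₂, σ, hpar⟩ := exists_par hf hc
    have hK := kpar_of_par hc hpar
    obtain ⟨hpq, hσ, hfwd, -⟩ := hpar
    have hσ1 := abs_eq_one_of_sq hσ
    have hp0 : p ≠ 0 := by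
      intro hp
      subst hp
      have hq0 : q ≠ 0 := by rintro rfl; norm_num at hpq
      have h2 := hfwd m₁
      have h3 := hfwd m₂
      rw [hfI m₁ hI₁] at h2
      rw [hfI m₂ hI₂] at h3
      have e1 : t₁ + 0 * m₁ - σ * q * (c * y₀) = t₁ + 0 * m₂ - σ * q * (c * y₀) := by ring
      rw [e1, h3] at h2
      have h4 : q * (m₂ - m₁) = 0 := by linarith
      exact mul_ne_zero hq0 hne h4
    have hq0 : q = 0 := by
      by_contra hq0
      have key : ∀ X ∈ Ioo x₁ x₂, t₂ + q * ((X - t₁ + σ * q * (c * y₀)) / p) + σ * p * (c * y₀) = y₀ := by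
        intro X hX
        have h2 := hK.2.2.1 _ _ (hline ((X - t₁ + σ * q * (c * y₀)) / p))
        have h3 : t₁ + p * ((X - t₁ + σ * q * (c * y₀)) / p) - σ * q * (c * y₀) = X := by
          rw [mul_div_cancel₀ _ hp0]; ring
        rw [h3] at h2
        exact hconst X _ hX h2
      have h2 := key m₁ hI₁
      have h3 := key m₂ hI₂
      have h4 : q / p * (m₂ - m₁) = 0 := by
        calc q / p * (m₂ - m₁) = (t₂ + q * ((m₂ - t₁ + σ * q * (c * y₀)) / p) + σ * p * (c * y₀)) -
            (t₂ + q * ((m₁ - t₁ + σ * q * (c * y₀)) / p) + σ * p * (c * y₀)) := by ring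
          _ = 0 := by rw [h2, h3, sub_self]
      exact mul_ne_zero (div_ne_zero hq0 hp0) hne h4
    subst hq0
    have hp2 : p ^ 2 = 1 := by linarith
    have hp1 := abs_eq_one_of_sq hp2
    have ht : t₂ + σ * p * (c * y₀) = y₀ := by
      have h2 := hK.2.2.1 _ _ (hline ((m₁ - t₁) / p))
      have h3 : t₁ + p * ((m₁ - t₁) / p) - σ * 0 * (c * y₀) = m₁ := by
        rw [mul_div_cancel₀ _ hp0]; ring
      rw [h3] at h2
      have h4 := hconst m₁ _ hI₁ h2
      linarith
    refine ⟨p, t₁, hp2, fun x => ?_⟩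
    have h2 := hfwd x
    have h3 : t₁ + p * x - σ * 0 * (c * f x) = t₁ + p * x := by ring
    rw [h3] at h2
    have h4 : f (t₁ + p * x) - y₀ = σ * (p * (c * (f x - y₀))) := by
      rw [h2]
      calc t₂ + 0 * x + σ * p * (c * f x) - y₀ =
            t₂ + 0 * x + σ * p * (c * f x) - (t₂ + σ * p * (c * y₀)) := by rw [ht]
        _ = _ := by ring
    rw [h4, abs_mul, abs_mul, abs_mul, hσ1, hp1, one_mul, one_mul, abs_of_pos hc]
  have h2 : ∀ c : ℝ, 0 < c → ∃ τ : ℝ, ∀ x, |f (τ + x) - y₀| = c * |f x - y₀| := by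
    intro c hc
    obtain ⟨ε, τ, hε, h⟩ := h1 (Real.sqrt c) (Real.sqrt_pos.2 hc)
    refine ⟨τ + ε * τ, fun x => ?_⟩
    have h3 := h (τ + ε * x)
    rw [h x, ← mul_assoc, Real.mul_self_sqrt hc.le] at h3
    rw [← h3]
    congr 3
    calc τ + ε * τ + x = τ + ε * τ + ε ^ 2 * x := by rw [hε, one_mul]
      _ = _ := by ring
  by_contra hcon
  push Not at hcon
  obtain ⟨x₃, hx₃⟩ := hcon
  have hpos : 0 < |f x₃ - y₀| := abs_pos.2 (sub_ne_zero.2 hx₃)
  let H : AddSubgroup ℝ :=
    { carrier := {τ | ∃ c : ℝ, 0 < c ∧ ∀ x, |f (τ + x) - y₀| = c * |f x - y₀|}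
      zero_mem' := ⟨1, one_pos, fun x => by rw [zero_add, one_mul]⟩
      add_mem' := by
        rintro τ τ' ⟨c, hc, h⟩ ⟨c', hc', h'⟩
        refine ⟨c * c', mul_pos hc hc', fun x => ?_⟩
        rw [add_assoc, h, h', mul_assoc]
      neg_mem' := by
        rintro τ ⟨c, hc, h⟩
        refine ⟨c⁻¹, inv_pos.2 hc, fun x => ?_⟩
        have h3 := h (-τ + x)
        rw [add_neg_cancel_left] at h3
        rw [h3, inv_mul_cancel_left₀ hc.ne'] }
  rcases AddSubgroup.dense_or_cyclic H with hd | ⟨a, ha⟩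
  · obtain ⟨τ, hτ, hτH⟩ := hd.exists_mem_open (isOpen_Ioo (a := x₁ - x₃) (b := x₂ - x₃))
      ⟨m₁ - x₃, by constructor <;> linarith [hI₁.1, hI₁.2]⟩
    obtain ⟨c, hc, h⟩ := hτ
    have h3 := h x₃
    rw [hfI (τ + x₃) ⟨by linarith [hτH.1], by linarith [hτH.2]⟩, sub_self, abs_zero] at h3
    exact (mul_pos hc hpos).ne h3
  · choose! τ hτ using h2
    have hinj : InjOn τ (Ioi 0) := by
      intro c hc c' hc' hcc
      have h3 := hτ c hc x₃
      have h4 := hτ c' hc' x₃
      rw [← hcc, h3] at h4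
      exact mul_right_cancel₀ hpos.ne' h4
    have hmaps : MapsTo τ (Ioi 0) (H : Set ℝ) := fun c hc => ⟨c, hc, hτ c hc⟩
    have hcount : (H : Set ℝ).Countable := by
      rw [ha]
      have : ((AddSubgroup.closure {a} : AddSubgroup ℝ) : Set ℝ) = range fun n : ℤ => n • a := by
        ext z
        rw [SetLike.mem_coe, AddSubgroup.mem_closure_singleton]
        rfl
      rw [this]
      exact countable_range _
    have h3 : (Ioi (0 : ℝ)).Countable := hmaps.countable_of_injOn hinj hcount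
    have h4 : (Ioo (0 : ℝ) 1).Countable := h3.mono Ioo_subset_Ioi_self
    rw [Cardinal.Real.Ioo_countable_iff] at h4
    linarith

/-- **Main theorem**: a vertically rigid function which is bounded on some nonempty open interval
has one of the two standard forms everywhere. -/
theorem rigid_of_bounded {f : ℝ → ℝ} (hf : VerticallyRigid f) {x₁ x₂ B : ℝ} (hx : x₁ < x₂)
    (hB : ∀ x ∈ Ioo x₁ x₂, |f x| ≤ B) :
    ∃ a b k : ℝ, (∀ x, f x = a + b * x) ∨ (∀ x, f x = a + b * Real.exp (k * x)) := by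
  have hfib : ∀ x ∈ Ioo x₁ x₂, ∀ y, (x, y) ∈ GK f → |y| ≤ B := by
    intro x hx y hxy
    by_contra hcon
    push Not at hcon
    have hopen : IsOpen {w : ℝ × ℝ | w.1 ∈ Ioo x₁ x₂ ∧ B < |w.2|} :=
      (isOpen_Ioo.preimage continuous_fst).inter
        (isOpen_lt continuous_const (continuous_abs.comp continuous_snd))
    obtain ⟨w, hw, ⟨x', rfl⟩⟩ := mem_closure_iff.1 hxy _ hopen ⟨hx, hcon⟩
    exact absurd (hB x' hw.1) (not_le.2 hw.2)
  obtain ⟨x₀, hx₀⟩ := exists_between hx
  have hK : ∀ c : ℝ, 0 < c → ∃ p q t₁ t₂ σ, KPar (GK f) c p q t₁ t₂ σ := by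
    intro c hc
    obtain ⟨p, q, t₁, t₂, σ, h⟩ := exists_par hf hc
    exact ⟨p, q, t₁, t₂, σ, kpar_of_par hc h⟩
  rcases structure_bdd (isClosed_GK f) hK (fun x => ⟨f x, mem_GK f x⟩) (hfib x₀ hx₀) with
    ⟨a, b, h⟩ | ⟨a, k, B', hk, hb, hfl⟩ | ⟨y₀, h⟩
  · exact ⟨a, b, 0, Or.inl fun x => h x _ (mem_GK f x)⟩
  · obtain ⟨b, h⟩ := exp_case hf hk hb hfl
    exact ⟨a, b, k, Or.inr h⟩
  · have hconst : ∀ x y, x ∈ Ioo x₁ x₂ → (x, y) ∈ GK f → y = y₀ := by
      intro x y hx hxy
      have : y - y₀ = 0 := by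
        refine eq_zero_of_mul_le (C := B + |y₀|) fun r hr => ?_
        rcases eq_or_lt_of_le hr with rfl | hr
        · rw [mul_zero]
          have := hfib x hx y hxy
          have := abs_nonneg y
          have := abs_nonneg y₀
          linarith
        · have h1 := hfib x hx _ (h r hr x y hxy)
          have h2 : |y - y₀| * r = |(y₀ + r * (y - y₀)) - y₀| := by
            rw [add_sub_cancel_left, abs_mul, abs_of_pos hr, mul_comm]
          rw [h2]
          have := abs_sub (y₀ + r * (y - y₀)) y₀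
          linarith
      linarith
    have hline : ∀ x, (x, y₀) ∈ GK f := by
      intro x
      have h1 : Tendsto (fun n : ℕ => (x, y₀ + 1 / ((n : ℝ) + 1) * (f x - y₀))) atTop
          (𝓝 (x, y₀ + 0 * (f x - y₀))) :=
        tendsto_const_nhds.prodMk_nhds
          (tendsto_const_nhds.add (tendsto_one_div_add_atTop_nhds_zero_nat.mul_const _))
      rw [zero_mul, add_zero] at h1
      exact (isClosed_GK f).mem_of_tendsto h1
        (Eventually.of_forall fun n => h _ (by positivity) _ _ (mem_GK f x))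
    exact ⟨y₀, 0, 0, Or.inl fun x => by
      rw [scaling_case hf hx hconst hline x, zero_mul, add_zero]⟩

end Pool.Agent.Lib.MP_1755e3_an
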