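import Pool.Agent.Lib.MP_1755e3_an.Flow

set_option autoImplicit false

open Set Metric Filter Topology NormedSpace

namespace Pool.Agent.Lib.MP_1755e3_an

variable {K : Set (ℝ × ℝ)}

theorem exists_seq (hK : ∀ c : ℝ, 0 < c → ∃ p q t₁ t₂ σ, KPar K c p q t₁ t₂ σ) :
    ∃ (c p q t₁ t₂ : ℕ → ℝ) (c' p' q' t₁' t₂' σ : ℝ), (∀ k, 0 < c k) ∧ 0 < c' ∧
      (∀ k, KPar K (c k) (p k) (q k) (t₁ k) (t₂ k) σ) ∧ (∀ k, c k ≠ c') ∧
      Tendsto c atTop (𝓝 c') ∧ Tendsto p atTop (𝓝 p') ∧ Tendsto q atTop (𝓝 q') ∧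
      Tendsto t₁ atTop (𝓝 t₁') ∧ Tendsto t₂ atTop (𝓝 t₂') := by
  choose! p q t₁ t₂ σ hpar using hK
  obtain ⟨N, hN⟩ : ∃ N : ℕ, {c ∈ Ioo (1 : ℝ) 2 | |t₁ c| ≤ N ∧ |t₂ c| ≤ N}.Infinite := by
    by_contra hcon
    push Not at hcon
    have h1 : Ioo (1 : ℝ) 2 ⊆ ⋃ N : ℕ, {c ∈ Ioo (1 : ℝ) 2 | |t₁ c| ≤ N ∧ |t₂ c| ≤ N} := by
      intro c hc
      obtain ⟨N, hN⟩ := exists_nat_ge (max |t₁ c| |t₂ c|)
      exact mem_iUnion.2 ⟨N, hc, (le_max_left _ _).trans hN, (le_max_right _ _).trans hN⟩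
    have h2 : (Ioo (1 : ℝ) 2).Countable :=
      (countable_iUnion fun N => (hcon N).countable).mono h1
    rw [Cardinal.Real.Ioo_countable_iff] at h2
    norm_num at h2
  let s := hN.natEmbedding
  let c₀ : ℕ → ℝ := fun k => (s k : ℝ)
  have hc₀inj : Function.Injective c₀ := Subtype.val_injective.comp s.injective
  have hc₀ : ∀ k, (1 < c₀ k ∧ c₀ k < 2) ∧ |t₁ (c₀ k)| ≤ N ∧ |t₂ (c₀ k)| ≤ N := fun k => (s k).2
  have hpos : ∀ k, 0 < c₀ k := fun k => zero_lt_one.trans (hc₀ k).1.1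
  let x : ℕ → ℝ × ℝ × ℝ × ℝ × ℝ × ℝ := fun k =>
    (c₀ k, p (c₀ k), q (c₀ k), t₁ (c₀ k), t₂ (c₀ k), σ (c₀ k))
  have hx : ∀ k, x k ∈ closedBall (0 : ℝ × ℝ × ℝ × ℝ × ℝ × ℝ) (N + 2) := by
    intro k
    obtain ⟨hpq, hσ, -⟩ := hpar (c₀ k) (hpos k)
    obtain ⟨hp, hq⟩ := abs_le_one_of_sq hpq
    have hσ1 := abs_eq_one_of_sq hσ
    obtain ⟨⟨h1, h2⟩, h3, h4⟩ := hc₀ k
    have hN0 : (0 : ℝ) ≤ N := Nat.cast_nonneg N
    rw [mem_closedBall_zero_iff]
    simp only [x, Prod.norm_def, Real.norm_eq_abs, sup_le_iff]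
    rw [abs_of_pos (hpos k)]
    refine ⟨by linarith, by linarith, by linarith, by linarith, by linarith, by linarith⟩
  obtain ⟨a, -, φ, hφ, hlim⟩ := tendsto_subseq_of_bounded isBounded_closedBall hx
  have l1 : Tendsto (fun k => c₀ (φ k)) atTop (𝓝 a.1) :=
    (continuous_fst.tendsto a).comp hlim
  have l2 : Tendsto (fun k => p (c₀ (φ k))) atTop (𝓝 a.2.1) :=
    ((continuous_fst.comp continuous_snd).tendsto a).comp hlim
  have l3 : Tendsto (fun k => q (c₀ (φ k))) atTop (𝓝 a.2.2.1) :=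
    ((continuous_fst.comp (continuous_snd.comp continuous_snd)).tendsto a).comp hlim
  have l4 : Tendsto (fun k => t₁ (c₀ (φ k))) atTop (𝓝 a.2.2.2.1) :=
    ((continuous_fst.comp (continuous_snd.comp (continuous_snd.comp continuous_snd))).tendsto
      a).comp hlim
  have l5 : Tendsto (fun k => t₂ (c₀ (φ k))) atTop (𝓝 a.2.2.2.2.1) :=
    ((continuous_fst.comp (continuous_snd.comp (continuous_snd.comp
      (continuous_snd.comp continuous_snd)))).tendsto a).comp hlim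
  have l6 : Tendsto (fun k => σ (c₀ (φ k))) atTop (𝓝 a.2.2.2.2.2) :=
    ((continuous_snd.comp (continuous_snd.comp (continuous_snd.comp
      (continuous_snd.comp continuous_snd)))).tendsto a).comp hlim
  have hσ' : a.2.2.2.2.2 ^ 2 = 1 := by
    have h1 : Tendsto (fun k => σ (c₀ (φ k)) ^ 2) atTop (𝓝 (a.2.2.2.2.2 ^ 2)) := l6.pow 2
    have h2 : (fun k => σ (c₀ (φ k)) ^ 2) = fun _ => (1 : ℝ) := by
      funext k; exact (hpar _ (hpos _)).2.1
    rw [h2] at h1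
    exact (tendsto_nhds_unique h1 tendsto_const_nhds)
  have hev1 : ∀ᶠ k in atTop, σ (c₀ (φ k)) = a.2.2.2.2.2 := by
    have h1 : ∀ᶠ k in atTop, |σ (c₀ (φ k)) - a.2.2.2.2.2| < 1 := by
      have := Metric.tendsto_nhds.1 l6 1 one_pos
      exact this.mono fun k hk => by rwa [Real.dist_eq] at hk
    filter_upwards [h1] with k hk
    have h2 : σ (c₀ (φ k)) ^ 2 = 1 := (hpar _ (hpos _)).2.1
    rcases sq_eq_one_iff.1 h2 with h3 | h3 <;>
      rcases sq_eq_one_iff.1 hσ' with h4 | h4 <;> rw [h3, h4] at hk ⊢ <;>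
      norm_num at hk
  have hev2 : ∀ᶠ k in atTop, c₀ (φ k) ≠ a.1 := by
    by_contra hcon
    rw [not_eventually] at hcon
    push Not at hcon
    have h1 := hcon.and_eventually (eventually_ge_atTop 0)
    obtain ⟨k, hk, -⟩ := h1.exists
    obtain ⟨l, hl, hkl⟩ := (hcon.and_eventually (eventually_gt_atTop k)).exists
    have := hφ.injective (hc₀inj (hl.trans hk.symm))
    omega
  obtain ⟨M, hM⟩ := eventually_atTop.1 (hev1.and hev2)
  have hsh : Tendsto (fun k => k + M) atTop atTop := tendsto_add_atTop_nat M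
  refine ⟨fun k => c₀ (φ (k + M)), fun k => p (c₀ (φ (k + M))), fun k => q (c₀ (φ (k + M))),
    fun k => t₁ (c₀ (φ (k + M))), fun k => t₂ (c₀ (φ (k + M))), a.1, a.2.1, a.2.2.1, a.2.2.2.1,
    a.2.2.2.2.1, a.2.2.2.2.2, fun k => hpos _, ?_, fun k => ?_, fun k => (hM _ (by omega)).2,
    l1.comp hsh, l2.comp hsh, l3.comp hsh, l4.comp hsh, l5.comp hsh⟩
  · have : (1 : ℝ) ≤ a.1 := ge_of_tendsto' l1 fun k => (hc₀ _).1.1.le
    linarith
  · have h1 := hpar _ (hpos (φ (k + M)))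
    rwa [(hM (k + M) (by omega)).1] at h1

/-- the one-parameter semigroup generated by the limit of rescaled differences -/
theorem exp_mem_of_tendsto (hKc : IsClosed K) {g : ℕ → E3 →L[ℝ] E3} {ρ : ℕ → ℝ}
    {ξ : E3 →L[ℝ] E3} (hρ : ∀ k, 0 < ρ k) (hρ0 : Tendsto ρ atTop (𝓝 0)) (hg : ∀ k, g k ∈ Sg K)
    (hlim : Tendsto (fun k => (ρ k)⁻¹ • (g k - 1)) atTop (𝓝 ξ)) {t : ℝ} (ht : 0 ≤ t) :
    exp (t • ξ) ∈ Sg K := by
  have hε : Tendsto (fun k => g k - 1) atTop (𝓝 0) := by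
    have h1 := hρ0.smul hlim
    rw [zero_smul] at h1
    refine h1.congr fun k => ?_
    rw [smul_smul, mul_inv_cancel₀ (hρ k).ne', one_smul]
  have hm : Tendsto (fun k => ((⌊t / ρ k⌋₊ : ℕ) : ℝ) • (g k - 1)) atTop (𝓝 (t • ξ)) := by
    have h1 : Tendsto (fun k => ((⌊t / ρ k⌋₊ : ℕ) : ℝ) * ρ k) atTop (𝓝 t) := by
      have h2 : Tendsto (fun k => t - ρ k) atTop (𝓝 t) := by
        have := (tendsto_const_nhds (x := t)).sub hρ0
        rwa [sub_zero] at this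
      refine tendsto_of_tendsto_of_tendsto_of_le_of_le h2 tendsto_const_nhds (fun k => ?_)
        (fun k => ?_)
      · have h3 := Nat.lt_floor_add_one (t / ρ k)
        rw [div_lt_iff₀ (hρ k)] at h3
        change t - ρ k ≤ ((⌊t / ρ k⌋₊ : ℕ) : ℝ) * ρ k
        linarith
      · have h3 := Nat.floor_le (div_nonneg ht (hρ k).le)
        rwa [le_div_iff₀ (hρ k)] at h3
    have h2 := h1.smul hlim
    refine h2.congr fun k => ?_
    rw [smul_smul]
    congr 1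
    rw [mul_assoc, mul_inv_cancel₀ (hρ k).ne', mul_one]
  have h3 := tendsto_pow_exp hε hm
  refine mem_Sg_of_tendsto hKc h3 (Eventually.of_forall fun k => ?_)
  rw [add_sub_cancel]
  exact pow_mem_Sg (hg k) _

theorem exists_flow (hKc : IsClosed K)
    (hK : ∀ c : ℝ, 0 < c → ∃ p q t₁ t₂ σ, KPar K c p q t₁ t₂ σ) :
    ∃ A e b₁ b₂ c σ : ℝ, 0 < c ∧ σ ^ 2 = 1 ∧ |A| + |e| + |b₁| + |b₂| = 1 ∧
      ∀ t : ℝ, exp (t • mat 0 (-(σ * c * A)) b₁ (σ * c⁻¹ * A) e b₂ 0) ∈ Sg K := by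
  obtain ⟨c, p, q, t₁, t₂, c', p', q', t₁', t₂', σ, hc, hc', hpar, hcne, lc, lp, lq, lt₁, lt₂⟩ :=
    exists_seq hK
  have hσ : σ ^ 2 = 1 := (hpar 0).2.1
  have hpq : ∀ k, p k ^ 2 + q k ^ 2 = 1 := fun k => (hpar k).1
  have hpq' : p' ^ 2 + q' ^ 2 = 1 := by
    have h1 : Tendsto (fun k => p k ^ 2 + q k ^ 2) atTop (𝓝 (p' ^ 2 + q' ^ 2)) :=
      (lp.pow 2).add (lq.pow 2)
    have h2 : (fun k => p k ^ 2 + q k ^ 2) = fun _ => (1 : ℝ) := funext hpq
    rw [h2] at h1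
    exact tendsto_nhds_unique h1 tendsto_const_nhds
  have lcinv : Tendsto (fun k => (c k)⁻¹) atTop (𝓝 c'⁻¹) := lc.inv₀ hc'.ne'
  have cst : ∀ x : ℝ, Tendsto (fun _ : ℕ => x) atTop (𝓝 x) := fun x => tendsto_const_nhds
  -- limits of the maps and of their inverses
  have lT : Tendsto (fun k => Tm (c k) (p k) (q k) (t₁ k) (t₂ k) σ) atTop
      (𝓝 (Tm c' p' q' t₁' t₂' σ)) :=
    tendsto_mat lp ((((cst σ).mul lq).mul lc).neg) lt₁ lq (((cst σ).mul lp).mul lc) lt₂ (cst 1)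
  have lTi : Tendsto (fun k => Ti (c k) (p k) (q k) (t₁ k) (t₂ k) σ) atTop
      (𝓝 (Ti c' p' q' t₁' t₂' σ)) :=
    tendsto_mat lp lq (((lp.mul lt₁).add (lq.mul lt₂)).neg) ((((cst σ).mul lcinv).mul lq).neg)
      (((cst σ).mul lcinv).mul lp) (((cst σ).mul lcinv).mul ((lq.mul lt₁).sub (lp.mul lt₂)))
      (cst 1)
  have hT' : Tm c' p' q' t₁' t₂' σ ∈ Sg K :=
    mem_Sg_of_tendsto hKc lT (Eventually.of_forall fun k => Tm_mem_Sg (hpar k))
  have hTi' : Ti c' p' q' t₁' t₂' σ ∈ Sg K :=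
    mem_Sg_of_tendsto hKc lTi (Eventually.of_forall fun k => Ti_mem_Sg (hc k).ne' (hpar k))
  -- small quantities
  let C : ℕ → ℝ := fun k => p' * p k + q' * q k
  let S : ℕ → ℝ := fun k => p' * q k - q' * p k
  let B₁ : ℕ → ℝ := fun k => p' * (t₁ k - t₁') + q' * (t₂ k - t₂')
  let B₂ : ℕ → ℝ := fun k => σ * c'⁻¹ * (p' * (t₂ k - t₂') - q' * (t₁ k - t₁'))
  let E : ℕ → ℝ := fun k => c'⁻¹ * c k * C k - 1
  have lC : Tendsto C atTop (𝓝 1) := by
    have h1 : Tendsto C atTop (𝓝 (p' * p' + q' * q')) := ((cst p').mul lp).add ((cst q').mul lq)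
    have h2 : p' * p' + q' * q' = 1 := by rw [← hpq']; ring
    rwa [h2] at h1
  have lS : Tendsto S atTop (𝓝 0) := by
    have h1 : Tendsto S atTop (𝓝 (p' * q' - q' * p')) := ((cst p').mul lq).sub ((cst q').mul lp)
    have h2 : p' * q' - q' * p' = 0 := by ring
    rwa [h2] at h1
  have lB₁ : Tendsto B₁ atTop (𝓝 0) := by
    have h1 : Tendsto B₁ atTop (𝓝 (p' * (t₁' - t₁') + q' * (t₂' - t₂'))) :=
      ((cst p').mul (lt₁.sub (cst t₁'))).add ((cst q').mul (lt₂.sub (cst t₂')))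
    simpa using h1
  have lB₂ : Tendsto B₂ atTop (𝓝 0) := by
    have h1 : Tendsto B₂ atTop (𝓝 (σ * c'⁻¹ * (p' * (t₂' - t₂') - q' * (t₁' - t₁')))) :=
      (cst _).mul (((cst p').mul (lt₂.sub (cst t₂'))).sub ((cst q').mul (lt₁.sub (cst t₁'))))
    simpa using h1
  have lE : Tendsto E atTop (𝓝 0) := by
    have h1 : Tendsto E atTop (𝓝 (c'⁻¹ * c' * 1 - 1)) :=
      (((cst c'⁻¹).mul lc).mul lC).sub (cst 1)
    rwa [inv_mul_cancel₀ hc'.ne', one_mul, sub_self] at h1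
  have hCS : ∀ k, C k ^ 2 + S k ^ 2 = 1 := by
    intro k
    have : C k ^ 2 + S k ^ 2 = (p' ^ 2 + q' ^ 2) * (p k ^ 2 + q k ^ 2) := by
      simp only [C, S]; ring
    rw [this, hpq', hpq, one_mul]
  let ρ : ℕ → ℝ := fun k => |S k| + |E k| + |B₁ k| + |B₂ k|
  have lρ : Tendsto ρ atTop (𝓝 0) := by
    have h1 : Tendsto ρ atTop (𝓝 (|(0 : ℝ)| + |(0 : ℝ)| + |(0 : ℝ)| + |(0 : ℝ)|)) :=
      ((lS.abs.add lE.abs).add lB₁.abs).add lB₂.abs
    simpa using h1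
  -- pass to a tail where `C > 0`
  obtain ⟨M, hM⟩ := eventually_atTop.1 (lC.eventually_const_lt (show (0 : ℝ) < 1 from one_pos))
  have hsh : Tendsto (fun k => k + M) atTop atTop := tendsto_add_atTop_nat M
  have hρpos : ∀ k, 0 < ρ (k + M) := by
    intro k
    have hC0 := hM (k + M) (by omega)
    have h0 : 0 ≤ ρ (k + M) := by simp only [ρ]; positivity
    refine lt_of_le_of_ne h0 fun h => ?_
    have h1 := abs_nonneg (S (k + M))
    have h2 := abs_nonneg (E (k + M))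
    have h3 := abs_nonneg (B₁ (k + M))
    have h4 := abs_nonneg (B₂ (k + M))
    have h5 : |S (k + M)| + |E (k + M)| + |B₁ (k + M)| + |B₂ (k + M)| = 0 := h.symm
    have h6 : S (k + M) = 0 := abs_eq_zero.1 (by linarith)
    have h7 : E (k + M) = 0 := abs_eq_zero.1 (by linarith)
    have h8 := hCS (k + M)
    rw [h6] at h8
    have h9 : C (k + M) = 1 := by nlinarith
    have h10 : c'⁻¹ * c (k + M) * C (k + M) - 1 = 0 := h7
    rw [h9, mul_one] at h10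
    have h11 : c (k + M) = c' := by
      have : c'⁻¹ * c (k + M) = 1 := by linarith
      field_simp at this
      exact this
    exact hcne _ h11
  -- normalized quantities
  let x : ℕ → ℝ × ℝ × ℝ × ℝ := fun k => (S (k + M) / ρ (k + M), E (k + M) / ρ (k + M),
    B₁ (k + M) / ρ (k + M), B₂ (k + M) / ρ (k + M))
  have hx : ∀ k, x k ∈ closedBall (0 : ℝ × ℝ × ℝ × ℝ) 1 := by
    intro k
    have hr := hρpos k
    have h1 := abs_nonneg (S (k + M))
    have h2 := abs_nonneg (E (k + M))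
    have h3 := abs_nonneg (B₁ (k + M))
    have h4 := abs_nonneg (B₂ (k + M))
    have h5 : ρ (k + M) = |S (k + M)| + |E (k + M)| + |B₁ (k + M)| + |B₂ (k + M)| := rfl
    rw [mem_closedBall_zero_iff]
    simp only [x, Prod.norm_def, Real.norm_eq_abs, sup_le_iff, abs_div, abs_of_pos hr,
      div_le_one hr]
    refine ⟨by linarith, by linarith, by linarith, by linarith⟩
  obtain ⟨a, -, φ, hφ, hlim⟩ := tendsto_subseq_of_bounded isBounded_closedBall hx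
  have hφt : Tendsto (fun k => φ k + M) atTop atTop := hsh.comp hφ.tendsto_atTop
  have l1 : Tendsto (fun k => S (φ k + M) / ρ (φ k + M)) atTop (𝓝 a.1) :=
    (continuous_fst.tendsto a).comp hlim
  have l2 : Tendsto (fun k => E (φ k + M) / ρ (φ k + M)) atTop (𝓝 a.2.1) :=
    ((continuous_fst.comp continuous_snd).tendsto a).comp hlim
  have l3 : Tendsto (fun k => B₁ (φ k + M) / ρ (φ k + M)) atTop (𝓝 a.2.2.1) :=
    ((continuous_fst.comp (continuous_snd.comp continuous_snd)).tendsto a).comp hlim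
  have l4 : Tendsto (fun k => B₂ (φ k + M) / ρ (φ k + M)) atTop (𝓝 a.2.2.2) :=
    ((continuous_snd.comp (continuous_snd.comp continuous_snd)).tendsto a).comp hlim
  have hr : ∀ k, 0 < ρ (φ k + M) := fun k => hρpos (φ k)
  have hsum : |a.1| + |a.2.1| + |a.2.2.1| + |a.2.2.2| = 1 := by
    have h1 := ((l1.abs.add l2.abs).add l3.abs).add l4.abs
    refine tendsto_nhds_unique h1 ?_
    refine tendsto_const_nhds.congr fun k => ?_
    rw [abs_div, abs_div, abs_div, abs_div, abs_of_pos (hr k), ← add_div, ← add_div, ← add_div]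
    exact (div_self (hr k).ne').symm
  refine ⟨a.1, a.2.1, a.2.2.1, a.2.2.2, c', σ, hc', hσ, hsum, ?_⟩
  set ξ := mat 0 (-(σ * c' * a.1)) a.2.2.1 (σ * c'⁻¹ * a.1) a.2.1 a.2.2.2 0 with hξ
  -- the elements close to the identity
  let g : ℕ → E3 →L[ℝ] E3 := fun k =>
    Ti c' p' q' t₁' t₂' σ * Tm (c (φ k + M)) (p (φ k + M)) (q (φ k + M)) (t₁ (φ k + M))
      (t₂ (φ k + M)) σ
  let h : ℕ → E3 →L[ℝ] E3 := fun k =>
    Ti (c (φ k + M)) (p (φ k + M)) (q (φ k + M)) (t₁ (φ k + M)) (t₂ (φ k + M)) σ *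
      Tm c' p' q' t₁' t₂' σ
  have hg : ∀ k, g k ∈ Sg K := fun k => mul_mem_Sg hTi' (Tm_mem_Sg (hpar _))
  have hh : ∀ k, h k ∈ Sg K := fun k => mul_mem_Sg (Ti_mem_Sg (hc _).ne' (hpar _)) hT'
  have hgform : ∀ k, g k - 1 = mat (C (φ k + M) - 1) (-(σ * c (φ k + M) * S (φ k + M)))
      (B₁ (φ k + M)) (σ * c'⁻¹ * S (φ k + M)) (E (φ k + M)) (B₂ (φ k + M)) 0 := by
    intro k
    change Ti c' p' q' t₁' t₂' σ * Tm (c (φ k + M)) (p (φ k + M)) (q (φ k + M)) (t₁ (φ k + M))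
      (t₂ (φ k + M)) σ - 1 = _
    rw [Ti_mul_Tm' hσ, ← mat_one]
    refine ContinuousLinearMap.ext fun v => ?_
    rw [sub_apply, mat_apply, mat_apply, mat_apply]
    refine Prod.ext ?_ (Prod.ext ?_ ?_)
    · simp only [Prod.fst_sub, C, S, B₁]; ring
    · simp only [Prod.fst_sub, Prod.snd_sub, C, S, E, B₂]; ring
    · simp only [Prod.snd_sub]; ring
  have hglim : Tendsto (fun k => (ρ (φ k + M))⁻¹ • (g k - 1)) atTop (𝓝 ξ) := by
    have h1 : ∀ k, (ρ (φ k + M))⁻¹ • (g k - 1) =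
        mat ((C (φ k + M) - 1) / ρ (φ k + M))
          (-(σ * c (φ k + M) * (S (φ k + M) / ρ (φ k + M)))) (B₁ (φ k + M) / ρ (φ k + M))
          (σ * c'⁻¹ * (S (φ k + M) / ρ (φ k + M))) (E (φ k + M) / ρ (φ k + M))
          (B₂ (φ k + M) / ρ (φ k + M)) 0 := by
      intro k
      rw [hgform]
      refine ContinuousLinearMap.ext fun v => ?_
      rw [smul_apply, mat_apply, mat_apply]
      refine Prod.ext ?_ (Prod.ext ?_ ?_)
      · simp only [Prod.smul_fst, smul_eq_mul]; ring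
      · simp only [Prod.smul_fst, Prod.smul_snd, smul_eq_mul]; ring
      · simp only [Prod.smul_snd, smul_eq_mul]; ring
    simp_rw [h1]
    have h2 : Tendsto (fun k => (C (φ k + M) - 1) / ρ (φ k + M)) atTop (𝓝 0) := by
      have h3 : Tendsto (fun k => |S (φ k + M)|) atTop (𝓝 0) := by
        have := (lS.comp hφt).abs
        rwa [abs_zero] at this
      refine squeeze_zero_norm (fun k => ?_) h3
      have hC0 : 0 < C (φ k + M) := hM _ (by omega)
      have h4 := hCS (φ k + M)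
      have h5 := abs_nonneg (S (φ k + M))
      have h6 : |S (φ k + M)| ≤ ρ (φ k + M) := by
        have h2 := abs_nonneg (E (φ k + M))
        have h3 := abs_nonneg (B₁ (φ k + M))
        have h4 := abs_nonneg (B₂ (φ k + M))
        change |S (φ k + M)| ≤ |S (φ k + M)| + |E (φ k + M)| + |B₁ (φ k + M)| + |B₂ (φ k + M)|
        linarith
      have h7 : |C (φ k + M) - 1| ≤ |S (φ k + M)| ^ 2 := by
        rw [sq_abs, abs_le]
        constructor <;> nlinarith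
      rw [Real.norm_eq_abs, abs_div, abs_of_pos (hr k), div_le_iff₀ (hr k)]
      nlinarith
    exact tendsto_mat h2 (((tendsto_const_nhds.mul (lc.comp hφt)).mul l1).neg) l3
      (tendsto_const_nhds.mul l1) l2 l4 (cst 0)
  have lρφ : Tendsto (fun k => ρ (φ k + M)) atTop (𝓝 0) := lρ.comp hφt
  have hhlim' : Tendsto h atTop (𝓝 1) := by
    have h1 : Tendsto h atTop (𝓝 (Ti c' p' q' t₁' t₂' σ * Tm c' p' q' t₁' t₂' σ)) :=
      (lTi.comp hφt).mul_const _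
    rwa [Ti_mul_Tm hc'.ne' hpq' hσ] at h1
  have hhg : ∀ k, h k * g k = 1 := by
    intro k
    change (Ti (c (φ k + M)) (p (φ k + M)) (q (φ k + M)) (t₁ (φ k + M)) (t₂ (φ k + M)) σ *
      Tm c' p' q' t₁' t₂' σ) * (Ti c' p' q' t₁' t₂' σ * Tm (c (φ k + M)) (p (φ k + M))
      (q (φ k + M)) (t₁ (φ k + M)) (t₂ (φ k + M)) σ) = 1
    have e1 : Tm c' p' q' t₁' t₂' σ * Ti c' p' q' t₁' t₂' σ = 1 := by
      refine ContinuousLinearMap.ext fun v => ?_
      change Tm c' p' q' t₁' t₂' σ (Ti c' p' q' t₁' t₂' σ v) = v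
      rw [Tm, Ti, mat_apply, mat_apply]
      have hcc : c' * c'⁻¹ = 1 := mul_inv_cancel₀ hc'.ne'
      refine Prod.ext ?_ (Prod.ext ?_ ?_)
      · dsimp only
        linear_combination (v.1 - t₁' * v.2.2) * hpq' +
          (q' ^ 2 * v.1 - p' * q' * v.2.1 - q' * (q' * t₁' - p' * t₂') * v.2.2) *
            (σ ^ 2 * hcc + hσ)
      · dsimp only
        linear_combination (v.2.1 - t₂' * v.2.2) * hpq' +
          (-p' * q' * v.1 + p' ^ 2 * v.2.1 + p' * (q' * t₁' - p' * t₂') * v.2.2) *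
            (σ ^ 2 * hcc + hσ)
      · dsimp only; ring
    rw [mul_assoc, ← mul_assoc (Tm c' p' q' t₁' t₂' σ), e1, one_mul]
    exact Ti_mul_Tm (hc _).ne' (hpq _) hσ
  have hhlim : Tendsto (fun k => (ρ (φ k + M))⁻¹ • (h k - 1)) atTop (𝓝 (-ξ)) := by
    have h1 : ∀ k, (ρ (φ k + M))⁻¹ • (h k - 1) = -(h k * ((ρ (φ k + M))⁻¹ • (g k - 1))) := by
      intro k
      rw [mul_smul_comm, mul_sub, hhg, mul_one]
      module
    simp_rw [h1]
    have h2 := (hhlim'.mul hglim).neg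
    rwa [one_mul] at h2
  intro t
  rcases le_total 0 t with ht | ht
  · exact exp_mem_of_tendsto hKc hr lρφ hg hglim ht
  · have h1 := exp_mem_of_tendsto hKc hr lρφ hh hhlim (t := -t) (by linarith)
    rwa [smul_neg, neg_smul, neg_neg] at h1

end Pool.Agent.Lib.MP_1755e3_an
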